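import Pool.Agent.P8H9.PW.Tr

/-! Exponentials of power series with bounded coefficients and their averages. -/

set_option autoImplicit false

namespace Pool.Agent.P8H9.PW

open Finset Pool.Agent.P8H9.AV

/-- `exp (∑_{m ≥ 1} θ_m z^m / m)` -/
noncomputable def Ex (θ : ℕ → ℝ) (z : ℂ) : ℂ :=
  Complex.exp (∑' m : ℕ, (θ (m + 1) : ℂ) * z ^ (m + 1) / (m + 1 : ℂ))

theorem norm_succ (m : ℕ) : (1 : ℝ) ≤ ‖(m + 1 : ℂ)‖ := by
  have : (m + 1 : ℂ) = ((m + 1 : ℕ) : ℂ) := by push_cast; rfl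
  rw [this, Complex.norm_natCast]
  exact_mod_cast (by omega : 1 ≤ m + 1)

variable {θ : ℕ → ℝ} {B y₀ : ℝ} {z : ℂ}

theorem term_norm (hθ : ∀ m, |θ (m + 1)| ≤ B) (m : ℕ) :
    ‖(θ (m + 1) : ℂ) * z ^ (m + 1) / (m + 1 : ℂ)‖ ≤ B * ‖z‖ ^ (m + 1) := by
  rw [norm_div, norm_mul, norm_pow, Complex.norm_real, Real.norm_eq_abs]
  refine (div_le_self (by positivity) (norm_succ m)).trans ?_
  exact mul_le_mul_of_nonneg_right (hθ m) (by positivity)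

theorem summable_Ex (hθ : ∀ m, |θ (m + 1)| ≤ B) (hz : ‖z‖ < 1) :
    Summable fun m : ℕ => (θ (m + 1) : ℂ) * z ^ (m + 1) / (m + 1 : ℂ) := by
  refine Summable.of_norm_bounded (g := fun m => B * ‖z‖ ^ (m + 1)) ?_ (term_norm hθ)
  exact Summable.mul_left _ ((summable_nat_add_iff 1).2 (summable_geometric_of_lt_one
    (norm_nonneg _) hz))

theorem tail_Ex (hθ : ∀ m, |θ (m + 1)| ≤ B) (hz : ‖z‖ ≤ y₀) (h1 : y₀ < 1) (r : ℕ) :
    ‖∑' m : ℕ, (θ (m + r + 1) : ℂ) * z ^ (m + r + 1) / (((m + r : ℕ) : ℂ) + 1)‖ ≤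
      B / (1 - y₀) * ‖z‖ ^ (r + 1) := by
  have hB : 0 ≤ B := (abs_nonneg _).trans (hθ 0)
  have hz1 : ‖z‖ < 1 := lt_of_le_of_lt hz h1
  have h0 : 0 < 1 - y₀ := by linarith
  have hsum : Summable fun m : ℕ => B * ‖z‖ ^ (r + 1) * ‖z‖ ^ m :=
    Summable.mul_left _ (summable_geometric_of_lt_one (norm_nonneg _) hz1)
  have hle : ∀ m : ℕ, ‖(θ (m + r + 1) : ℂ) * z ^ (m + r + 1) / (((m + r : ℕ) : ℂ) + 1)‖ ≤
      B * ‖z‖ ^ (r + 1) * ‖z‖ ^ m := by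
    intro m
    have := term_norm (z := z) hθ (m + r)
    refine this.trans_eq ?_
    rw [mul_assoc, ← pow_add]
    congr 2
    omega
  refine (tsum_of_norm_bounded hsum.hasSum hle).trans ?_
  rw [tsum_mul_left, tsum_geometric_of_lt_one (norm_nonneg _) hz1]
  have h2 : (1 - ‖z‖)⁻¹ ≤ (1 - y₀)⁻¹ := inv_anti₀ h0 (by linarith)
  calc B * ‖z‖ ^ (r + 1) * (1 - ‖z‖)⁻¹ ≤ B * ‖z‖ ^ (r + 1) * (1 - y₀)⁻¹ := by gcongr
    _ = _ := by rw [div_eq_mul_inv]; ring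

/-- constants -/
noncomputable def K1 (A : ℝ) : ℝ := A * Real.exp A

/-- constants -/
noncomputable def K3 (A : ℝ) : ℝ := A + A ^ 2 + A ^ 3 * Real.exp A

theorem Ex_sub_one (hθ : ∀ m, |θ (m + 1)| ≤ B) (hz : ‖z‖ ≤ y₀) (h1 : y₀ < 1) :
    ‖Ex θ z - 1‖ ≤ K1 (B / (1 - y₀)) * ‖z‖ := by
  have hB : 0 ≤ B := (abs_nonneg _).trans (hθ 0)
  have h0 : 0 < 1 - y₀ := by linarith
  have h2 := tail_Ex hθ hz h1 0
  simp only [add_zero, zero_add, pow_one] at h2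
  set S : ℂ := ∑' m : ℕ, (θ (m + 1) : ℂ) * z ^ (m + 1) / (m + 1 : ℂ) with hS
  set A : ℝ := B / (1 - y₀) with hA
  have hA0 : 0 ≤ A := by positivity
  have h3 := Complex.norm_exp_sub_sum_le_norm_mul_exp S 1
  simp only [sum_range_one, pow_zero, Nat.factorial_zero, Nat.cast_one, div_one, pow_one] at h3
  have h4 : ‖S‖ ≤ A := h2.trans (by nlinarith [norm_nonneg z])
  unfold Ex K1
  rw [← hS]
  refine h3.trans ?_
  calc ‖S‖ * Real.exp ‖S‖ ≤ (A * ‖z‖) * Real.exp A :=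
        mul_le_mul h2 (Real.exp_le_exp.2 h4) (Real.exp_pos _).le (by positivity)
    _ = _ := by ring

theorem Ex_second (hθ : ∀ m, |θ (m + 1)| ≤ B) (hz : ‖z‖ ≤ y₀) (h1 : y₀ < 1) :
    ‖Ex θ z - (1 + θ 1 * z + ((θ 1 : ℂ) ^ 2 + θ 2) / 2 * z ^ 2)‖ ≤
      K3 (B / (1 - y₀)) * ‖z‖ ^ 3 := by
  have hB : 0 ≤ B := (abs_nonneg _).trans (hθ 0)
  have h0 : 0 < 1 - y₀ := by linarith
  have hz1 : ‖z‖ < 1 := lt_of_le_of_lt hz h1
  have hz0 := norm_nonneg z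
  have t0 := tail_Ex hθ hz h1 0
  have t1 := tail_Ex hθ hz h1 1
  have t2 := tail_Ex hθ hz h1 2
  simp only [add_zero, zero_add, pow_one] at t0
  set f : ℕ → ℂ := fun m : ℕ => (θ (m + 1) : ℂ) * z ^ (m + 1) / (m + 1 : ℂ) with hf
  have hs : Summable f := summable_Ex hθ hz1
  set S : ℂ := ∑' m : ℕ, (θ (m + 1) : ℂ) * z ^ (m + 1) / (m + 1 : ℂ) with hS
  have e1 : S = θ 1 * z + ∑' m : ℕ, f (m + 1) := by
    have := hs.tsum_eq_zero_add
    rw [hS, this]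
    simp [hf]
  have e2 : S = θ 1 * z + θ 2 / 2 * z ^ 2 + ∑' m : ℕ, f (m + 2) := by
    have h2 := hs.sum_add_tsum_nat_add 2
    rw [hS, ← h2, sum_range_succ, sum_range_one]
    simp only [hf]
    push_cast
    norm_num
    ring
  have t1' : ‖∑' m : ℕ, f (m + 1)‖ ≤ B / (1 - y₀) * ‖z‖ ^ 2 := t1
  have t2' : ‖∑' m : ℕ, f (m + 2)‖ ≤ B / (1 - y₀) * ‖z‖ ^ 3 := t2
  set A : ℝ := B / (1 - y₀) with hA
  have hA0 : 0 ≤ A := by positivity
  have h3 := Complex.norm_exp_sub_sum_le_norm_mul_exp S 3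
  rw [sum_range_succ, sum_range_succ, sum_range_one] at h3
  simp only [pow_zero, Nat.factorial_zero, Nat.cast_one, div_one, pow_one, Nat.factorial_one,
    Nat.factorial_two, Nat.cast_ofNat] at h3
  have h4 : ‖S‖ ≤ A := t0.trans (by nlinarith)
  set w1 := ∑' m : ℕ, f (m + 1) with hw1
  set w2 := ∑' m : ℕ, f (m + 2) with hw2
  have e3 : Complex.exp S - (1 + θ 1 * z + ((θ 1 : ℂ) ^ 2 + θ 2) / 2 * z ^ 2) =
      (Complex.exp S - (1 + S + S ^ 2 / 2)) + w2 + w1 * (S + θ 1 * z) / 2 := by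
    have e4 : w2 = S - θ 1 * z - θ 2 / 2 * z ^ 2 := by rw [e2]; ring
    have e5 : w1 = S - θ 1 * z := by rw [e1]; ring
    rw [e4, e5]
    ring
  unfold Ex K3
  rw [← hS, e3]
  have h5 : ‖S + θ 1 * z‖ ≤ 2 * (A * ‖z‖) := by
    have h6 : ‖(θ 1 : ℂ) * z‖ ≤ A * ‖z‖ := by
      rw [norm_mul, Complex.norm_real, Real.norm_eq_abs]
      have h7 : |θ 1| ≤ A := by
        refine (hθ 0).trans ?_
        rw [hA, le_div_iff₀ h0]
        nlinarith [hz0]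
      gcongr
    refine (norm_add_le _ _).trans ?_
    linarith
  have h6 : ‖w1 * (S + θ 1 * z) / 2‖ ≤ A ^ 2 * ‖z‖ ^ 3 := by
    rw [norm_div, norm_mul]
    have : ‖(2 : ℂ)‖ = 2 := by norm_num
    rw [this, div_le_iff₀ (by norm_num)]
    calc ‖w1‖ * ‖S + θ 1 * z‖ ≤ (A * ‖z‖ ^ 2) * (2 * (A * ‖z‖)) :=
          mul_le_mul t1' h5 (norm_nonneg _) (by positivity)
      _ = _ := by ring
  have h7 : ‖Complex.exp S - (1 + S + S ^ 2 / 2)‖ ≤ A ^ 3 * Real.exp A * ‖z‖ ^ 3 := by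
    refine h3.trans ?_
    calc ‖S‖ ^ 3 * Real.exp ‖S‖ ≤ (A * ‖z‖) ^ 3 * Real.exp A :=
          mul_le_mul (pow_le_pow_left₀ (norm_nonneg _) t0 3) (Real.exp_le_exp.2 h4)
            (Real.exp_pos _).le (by positivity)
      _ = _ := by ring
  refine (norm_add_le _ _).trans ((add_le_add (norm_add_le _ _) h6).trans ?_)
  calc ‖Complex.exp S - (1 + S + S ^ 2 / 2)‖ + ‖w2‖ + A ^ 2 * ‖z‖ ^ 3
      ≤ A ^ 3 * Real.exp A * ‖z‖ ^ 3 + A * ‖z‖ ^ 3 + A ^ 2 * ‖z‖ ^ 3 := by linarith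
    _ = _ := by ring

theorem Ex_add {θ' : ℕ → ℝ} {B' : ℝ} (hθ : ∀ m, |θ (m + 1)| ≤ B) (hθ' : ∀ m, |θ' (m + 1)| ≤ B')
    (hz : ‖z‖ < 1) : Ex (fun m => θ m + θ' m) z = Ex θ z * Ex θ' z := by
  unfold Ex
  rw [← Complex.exp_add, ← (summable_Ex hθ hz).tsum_add (summable_Ex hθ' hz)]
  congr 1
  refine tsum_congr fun m => ?_
  push_cast
  ring

theorem Ex_diff (hθ : ∀ m, |θ (m + 1)| ≤ B) (hz : ‖z‖ < 1) : DifferentiableAt ℂ (Ex θ) z := by
  have h1 : Ex θ = fun z => Complex.exp (∑' n : ℕ, (θ (n + 1) : ℂ) / (n + 1 : ℂ) * z ^ (n + 1)) := by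
    funext z
    unfold Ex
    congr 1
    refine tsum_congr fun m => ?_
    ring
  rw [h1]
  refine DifferentiableAt.cexp ?_
  refine (hasDerivAt_ser (c := fun n => (θ n : ℂ)) (R := 1) (C := B) one_pos (fun n hn => ?_)
    hz).differentiableAt
  obtain ⟨m, rfl⟩ : ∃ m, n = m + 1 := ⟨n - 1, by omega⟩
  rw [Complex.norm_real, Real.norm_eq_abs, one_pow, mul_one]
  exact hθ m

/-- the exponents of the correction factor -/
def rho (a b : ℤ) (m : ℕ) : ℝ := -(a : ℝ) - (b : ℝ) * (1 + (-1) ^ m)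

theorem rho_bd (a b : ℤ) (m : ℕ) : |rho a b m| ≤ |(a : ℝ)| + 2 * |(b : ℝ)| := by
  unfold rho
  refine (abs_sub _ _).trans ?_
  rw [abs_neg, abs_mul]
  have h1 : |(1 : ℝ) + (-1) ^ m| ≤ 2 := by
    rcases neg_one_pow_eq_or ℝ m with h | h <;> rw [h] <;> norm_num
  have := mul_le_mul_of_nonneg_left h1 (abs_nonneg (b : ℝ))
  linarith

/-- the correction factor -/
theorem Ex_rho (a b : ℤ) (hz : ‖z‖ < 1) : Ex (rho a b) z = (1 - z) ^ a * (1 - z ^ 2) ^ b := by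
  have hz' : ‖-z‖ < 1 := by rwa [norm_neg]
  have h1 := Pool.Agent.P8H9.PV.hasSum_log hz
  have h2 := Pool.Agent.P8H9.PV.hasSum_log hz'
  have h3 : HasSum (fun m : ℕ => (rho a b (m + 1) : ℂ) * z ^ (m + 1) / (m + 1 : ℂ))
      (-(a : ℂ) * (-Complex.log (1 - z)) -
        (b : ℂ) * (-Complex.log (1 - z) + -Complex.log (1 - -z))) := by
    have h4 := (h1.mul_left (-(a : ℂ))).sub ((h1.add h2).mul_left (b : ℂ))
    refine h4.congr_fun fun m => ?_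
    unfold rho
    push_cast
    rw [neg_pow z]
    ring
  unfold Ex
  rw [h3.tsum_eq]
  have h5 : (1 - z) ≠ 0 := by
    intro h
    have : z = 1 := by linear_combination -h
    rw [this, norm_one] at hz
    exact lt_irrefl _ hz
  have h6 : (1 - -z) ≠ 0 := by
    intro h
    have : z = -1 := by linear_combination h
    rw [this, norm_neg, norm_one] at hz
    exact lt_irrefl _ hz
  have h7 : -(a : ℂ) * (-Complex.log (1 - z)) -
      (b : ℂ) * (-Complex.log (1 - z) + -Complex.log (1 - -z)) =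
      (a : ℂ) * Complex.log (1 - z) + ((b : ℂ) * Complex.log (1 - z) +
        (b : ℂ) * Complex.log (1 - -z)) := by ring
  rw [h7, Complex.exp_add, Complex.exp_add, Complex.exp_int_mul, Complex.exp_int_mul,
    Complex.exp_int_mul, Complex.exp_log h5, Complex.exp_log h6, ← mul_zpow]
  congr 2
  ring

section avg

variable {F : Type*} [Field F] [Fintype F] [DecidableEq F]

/-- **averages of exponentials** -/
theorem avg_Ex {k : ℕ} (Θ : (Fin k → F) → ℕ → ℝ) (ρ : ℕ → ℝ) (Z : Finset (Fin k → F)) {B C D : ℝ}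
    (hΘ : ∀ c m, |Θ c (m + 1)| ≤ B) (hρ : ∀ m, |ρ (m + 1)| ≤ B)
    (hZ : (Z.card : ℝ) * Fintype.card F ≤ D * (Fintype.card F : ℝ) ^ k)
    (h₁ : |av F (fun c => Θ c 1)| ≤ C / Fintype.card F)
    (h₂ : |av F (fun c => Θ c 1 ^ 2 + Θ c 2)| ≤ C / Fintype.card F)
    (hz : ‖z‖ ≤ y₀) (h1 : y₀ < 1) :
    ‖(∑ c : Fin k → F, if c ∈ Z then Ex ρ z else Ex (Θ c) z) / (Fintype.card F : ℂ) ^ k - 1‖ ≤
      (2 * D * K1 (B / (1 - y₀)) + 2 * C) * (‖z‖ / Fintype.card F) +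
        K3 (B / (1 - y₀)) * ‖z‖ ^ 3 := by
  set q : ℝ := (Fintype.card F : ℝ) with hq
  have hq0 : 0 < q := by
    rw [hq]
    exact_mod_cast Fintype.card_pos
  have hqk : 0 < q ^ k := pow_pos hq0 k
  have hz0 := norm_nonneg z
  have hy0 : 0 ≤ y₀ := hz0.trans hz
  have hz1 : ‖z‖ ≤ 1 := by linarith
  have hB : 0 ≤ B := (abs_nonneg _).trans (hρ 0)
  have h1y : 0 < 1 - y₀ := by linarith
  have hK : 0 ≤ K1 (B / (1 - y₀)) := by unfold K1; positivity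
  have hqC : ((Fintype.card F : ℂ)) ^ k = ((q ^ k : ℝ) : ℂ) := by rw [hq]; push_cast; rfl
  have hsplit : (∑ c : Fin k → F, if c ∈ Z then Ex ρ z else Ex (Θ c) z) / (Fintype.card F : ℂ) ^ k
      - 1 = ((∑ c : Fin k → F, (Ex (Θ c) z - 1)) +
        ∑ c ∈ Z, ((Ex ρ z - 1) - (Ex (Θ c) z - 1))) / ((q ^ k : ℝ) : ℂ) := by
    have h2 : ∑ c : Fin k → F, (if c ∈ Z then Ex ρ z else Ex (Θ c) z) =
        ∑ c : Fin k → F, Ex (Θ c) z + ∑ c ∈ Z, ((Ex ρ z - 1) - (Ex (Θ c) z - 1)) := by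
      have h3 : ∑ c ∈ Z, ((Ex ρ z - 1) - (Ex (Θ c) z - 1)) =
          ∑ c : Fin k → F, if c ∈ Z then ((Ex ρ z - 1) - (Ex (Θ c) z - 1)) else 0 := by
        rw [← sum_filter]
        congr 1
        ext c
        simp
      rw [h3, ← sum_add_distrib]
      refine sum_congr rfl fun c _ => ?_
      split_ifs <;> ring
    have h4 : ((Fintype.card F ^ k : ℕ) : ℂ) = ((q ^ k : ℝ) : ℂ) := by rw [hq]; push_cast; rfl
    have h6 : ∑ c : Fin k → F, (Ex (Θ c) z - 1) =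
        ∑ c : Fin k → F, Ex (Θ c) z - ((q ^ k : ℝ) : ℂ) := by
      rw [sum_sub_distrib, sum_const, card_univ, Fintype.card_fun, Fintype.card_fin, nsmul_one, h4]
    have h5 : ((q ^ k : ℝ) : ℂ) ≠ 0 := by exact_mod_cast hqk.ne'
    rw [h2, hqC, h6, eq_div_iff h5, sub_mul, div_mul_cancel₀ _ h5, one_mul]
    ring
  -- the complete sum
  have hmain : ‖∑ c : Fin k → F, (Ex (Θ c) z - 1)‖ ≤
      q ^ k * (2 * C * (‖z‖ / q) + K3 (B / (1 - y₀)) * ‖z‖ ^ 3) := by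
    have h2 : ∑ c : Fin k → F, (Ex (Θ c) z - 1) =
        (∑ c : Fin k → F, (Ex (Θ c) z - (1 + Θ c 1 * z + ((Θ c 1 : ℂ) ^ 2 + Θ c 2) / 2 * z ^ 2))) +
        (((q ^ k * av F (fun c => Θ c 1) : ℝ) : ℂ) * z +
          ((q ^ k * av F (fun c => Θ c 1 ^ 2 + Θ c 2) : ℝ) : ℂ) / 2 * z ^ 2) := by
      have h3 : q ^ k * av F (fun c => Θ c 1) = ∑ c, Θ c 1 := by
        unfold av
        rw [← hq]
        field_simp
      have h4 : q ^ k * av F (fun c => Θ c 1 ^ 2 + Θ c 2) = ∑ c, (Θ c 1 ^ 2 + Θ c 2) := by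
        unfold av
        rw [← hq]
        field_simp
      rw [h3, h4]
      push_cast
      rw [sum_mul, sum_div, sum_mul, ← sum_add_distrib, ← sum_add_distrib]
      refine sum_congr rfl fun c _ => ?_
      ring
    rw [h2]
    refine (norm_add_le _ _).trans ?_
    have h3 : ‖∑ c : Fin k → F, (Ex (Θ c) z -
        (1 + Θ c 1 * z + ((Θ c 1 : ℂ) ^ 2 + Θ c 2) / 2 * z ^ 2))‖ ≤
        q ^ k * (K3 (B / (1 - y₀)) * ‖z‖ ^ 3) := by
      refine (norm_sum_le _ _).trans ((sum_le_card_nsmul _ _ _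
        fun c _ => Ex_second (hΘ c) hz h1).trans_eq ?_)
      rw [card_univ, Fintype.card_fun, Fintype.card_fin, nsmul_eq_mul]
      push_cast
      rfl
    have h4 : ‖((q ^ k * av F (fun c => Θ c 1) : ℝ) : ℂ) * z‖ ≤ q ^ k * (C / q * ‖z‖) := by
      rw [norm_mul, Complex.norm_real, Real.norm_eq_abs, abs_mul, abs_of_pos hqk, mul_assoc]
      gcongr
    have h5 : ‖((q ^ k * av F (fun c => Θ c 1 ^ 2 + Θ c 2) : ℝ) : ℂ) / 2 * z ^ 2‖ ≤
        q ^ k * (C / q * ‖z‖) := by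
      rw [norm_mul, norm_div, Complex.norm_real, Real.norm_eq_abs, abs_mul, abs_of_pos hqk, norm_pow]
      have h6 : ‖(2 : ℂ)‖ = 2 := by norm_num
      rw [h6]
      have h7 : 0 ≤ C / q := (abs_nonneg _).trans h₂
      calc q ^ k * |av F (fun c => Θ c 1 ^ 2 + Θ c 2)| / 2 * ‖z‖ ^ 2
          ≤ q ^ k * (C / q) / 1 * ‖z‖ ^ 1 := by
            have h8 : ‖z‖ ^ 2 ≤ ‖z‖ ^ 1 := pow_le_pow_of_le_one hz0 hz1 (by norm_num)
            have h9 : q ^ k * |av F (fun c => Θ c 1 ^ 2 + Θ c 2)| / 2 ≤ q ^ k * (C / q) / 1 := by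
              apply div_le_div₀ (by positivity) (by gcongr) one_pos (by norm_num)
            exact mul_le_mul h9 h8 (by positivity) (by positivity)
        _ = _ := by ring
    refine (add_le_add h3 ((norm_add_le _ _).trans (add_le_add h4 h5))).trans_eq ?_
    ring
  have hbad : ‖∑ c ∈ Z, ((Ex ρ z - 1) - (Ex (Θ c) z - 1))‖ ≤
      (Z.card : ℝ) * (2 * (K1 (B / (1 - y₀)) * ‖z‖)) := by
    refine (norm_sum_le _ _).trans ((sum_le_card_nsmul _ _ _ fun c _ => ?_).trans_eq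
      (nsmul_eq_mul _ _))
    refine (norm_sub_le _ _).trans ?_
    have h2 := Ex_sub_one hρ hz h1
    have h3 := Ex_sub_one (hΘ c) hz h1
    linarith
  rw [hsplit, norm_div, Complex.norm_real, Real.norm_of_nonneg hqk.le, div_le_iff₀ hqk]
  refine (norm_add_le _ _).trans ((add_le_add hmain hbad).trans ?_)
  have h5 : (Z.card : ℝ) ≤ D / q * q ^ k := by
    rw [div_mul_eq_mul_div, le_div_iff₀ hq0]
    exact hZ
  have h6 : 0 ≤ 2 * (K1 (B / (1 - y₀)) * ‖z‖) := by positivity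
  have h7 := mul_le_mul_of_nonneg_right h5 h6
  calc _ ≤ q ^ k * (2 * C * (‖z‖ / q) + K3 (B / (1 - y₀)) * ‖z‖ ^ 3) +
        D / q * q ^ k * (2 * (K1 (B / (1 - y₀)) * ‖z‖)) := by linarith
    _ = _ := by ring

end avg

end Pool.Agent.P8H9.PW
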