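import Pool.Agent.P8H9.PW.Main

/-! Positivity of the order of the pole. -/

set_option autoImplicit false

open Finset Polynomial

namespace Pool.Agent.P8H9.PW

theorem pn_coeff_zero (n j : ℕ) : (pn n (2 * j)).coeff 0 = (n.choose j : ℤ) := by
  have h1 : (pn n (2 * j)).coeff 0 = (((1 + X ^ 2 : ℤ[X]) ^ n)).coeff (2 * j) := by
    set φ : ℤ[X] →+* ℤ := evalRingHom 0 with hφ
    have h2 : (pn n (2 * j)).coeff 0 = φ (pn n (2 * j)) := by
      rw [coeff_zero_eq_eval_zero]
      rfl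
    have h3 : φ X = 0 := by rw [hφ]; simp
    rw [h2, pn, ← coeff_map, Polynomial.map_pow, Polynomial.map_add, Polynomial.map_add,
      Polynomial.map_mul, Polynomial.map_pow, map_C, map_X, Polynomial.map_one, h3, map_zero,
      zero_mul, add_zero]
  have h2 : (1 + X ^ 2 : ℤ[X]) ^ n = expand ℤ 2 ((1 + X) ^ n) := by
    rw [map_pow, map_add, map_one, expand_X]
  rw [h1, h2, coeff_expand_mul' (by norm_num), coeff_one_add_X_pow]

theorem gm_nonneg : ∀ m : ℕ, (0 : ℤ) ≤ gm 1 m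
  | 0 => by norm_num [gm]
  | 1 => by norm_num [gm]
  | m + 2 => by
    have h1 : gm (1 : ℤ) (m + 2) = 1 * ((m + 1 : ℕ) : ℤ) * gm 1 m := rfl
    rw [h1]
    have := gm_nonneg m
    positivity

theorem choose_le_aa (n j : ℕ) : (n.choose j : ℤ) ≤ aa n (2 * j) := by
  unfold aa expect
  rw [← pn_coeff_zero n j]
  have h1 : (pn n (2 * j)).coeff 0 = (pn n (2 * j)).coeff 0 * gm 1 0 := by
    simp [gm]
  rw [h1]
  exact single_le_sum (f := fun l => (pn n (2 * j)).coeff l * gm 1 l)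
    (fun l _ => mul_nonneg (pn_nonneg n _ l) (gm_nonneg l)) (mem_range.2 (by omega))

end Pool.Agent.P8H9.PW
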