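import Pool.Agent.P8H9.PW.Exp
import Pool.Agent.P8H9.PV.Pack

/-! The mean of the `L`-functions of the cohomology of the powers of hyperelliptic curves. -/

set_option autoImplicit false

open Finset Filter Topology Polynomial

namespace Pool.Agent.P8H9.PW

open Pool.Agent.H341R2 Pool.Agent.H341R2.Sharp Pool.Agent.P8H9.AV Pool.Agent.P8H9.PV

attribute [local instance] AV.fp

open Classical in
/-- the Euler factor `det(1 - Frob p^{-s} | Hⁱ(Cⁿ))⁻¹` of the `n`-th power of the curve `C : y² = f(x)`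
at the prime `p`, if `p ≠ 2` and `f` stays separable modulo `p`; `1` otherwise -/
noncomputable def eulerHi (n i : ℕ) (f : ℤ[X]) (p : Nat.Primes) (s : ℂ) : ℂ :=
  if GoodPrime f 1 p then goodFactor n i f 1 p s else 1

/-- the `L`-function `L(Hⁱ(Cⁿ), s)`, `C : y² = f(x)`, the product over the primes of good reduction -/
noncomputable def LHi (n i : ℕ) (f : ℤ[X]) (s : ℂ) : ℂ := ∏' p : Nat.Primes, eulerHi n i f p s

/-- `E[P(G)]`, `G` standard normal, `P` the coefficient of `Xⁱ` in `(1 + T X + X²)ⁿ` -/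
noncomputable def aa (n i : ℕ) : ℤ := expect (gm 1) (pn n i)

/-- `(E[P(G)²] + E[P(-1 + √2 G)] - a (a + 1)) / 2`, `a = E[P(G)]` -/
noncomputable def bb (n i : ℕ) : ℤ :=
  (expect (gm 1) (pn n i ^ 2) + expect em (pn n i) - aa n i * (aa n i + 1)) / 2

theorem two_bb (n i : ℕ) :
    2 * bb n i = expect (gm 1) (pn n i ^ 2) + expect em (pn n i) - aa n i * (aa n i + 1) := by
  unfold bb
  refine Int.mul_ediv_cancel' (Dvd.dvd.sub (even_expect _) ?_)
  exact (Int.even_mul_succ_self (aa n i)).two_dvd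

theorem aa_odd (n i : ℕ) (hi : Odd i) : aa n i = 0 := by
  unfold aa expect
  refine sum_eq_zero fun j _ => ?_
  rcases Nat.even_or_odd j with h | h
  · rw [pn_parity n i j (by
      obtain ⟨u, hu⟩ := hi
      obtain ⟨v, hv⟩ := h
      omega), zero_mul]
  · obtain ⟨v, hv⟩ := h
    rw [hv, gm_odd_zero, mul_zero]

/-- `p^{i/2 - s}` -/
noncomputable def zz (i : ℕ) (p : Nat.Primes) (s : ℂ) : ℂ :=
  ((AV.sq (ZMod p) : ℝ) : ℂ) ^ i * ((p : ℕ) : ℂ) ^ (-s)

theorem sq_eq (p : Nat.Primes) : AV.sq (ZMod p) = ((p : ℕ) : ℝ) ^ (1 / 2 : ℝ) := by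
  unfold AV.sq
  rw [ZMod.card, Real.sqrt_eq_rpow]

theorem zz_norm (i : ℕ) (p : Nat.Primes) (s : ℂ) :
    ‖zz i p s‖ = ((p : ℕ) : ℝ) ^ ((i : ℝ) / 2 - s.re) := by
  have hp : (0 : ℝ) < p := by exact_mod_cast p.2.pos
  unfold zz
  rw [norm_mul, norm_pow, Complex.norm_real, Real.norm_eq_abs, abs_of_pos sq_pos,
    Complex.norm_natCast_cpow_of_pos p.2.pos, Complex.neg_re, sq_eq, ← Real.rpow_natCast,
    ← Real.rpow_mul hp.le, ← Real.rpow_add hp]
  congr 1
  ring

theorem zz_eq (i : ℕ) (p : Nat.Primes) (s : ℂ) : zz i p s = ((p : ℕ) : ℂ) ^ (-(s - i / 2)) := by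
  have hp : ((p : ℕ) : ℂ) ≠ 0 := by exact_mod_cast p.2.ne_zero
  unfold zz
  have h1 : ((AV.sq (ZMod p) : ℝ) : ℂ) = ((p : ℕ) : ℂ) ^ (1 / 2 : ℂ) := by
    rw [sq_eq, Complex.ofReal_cpow (by positivity)]
    push_cast
    rfl
  rw [h1, ← Complex.cpow_nat_mul, ← Complex.cpow_add _ _ hp]
  congr 1
  ring

theorem zz_sq (i : ℕ) (p : Nat.Primes) (s : ℂ) :
    zz i p s ^ 2 = ((p : ℕ) : ℂ) ^ (-(2 * s - i)) := by
  rw [zz_eq, ← Complex.cpow_nat_mul]
  congr 1
  push_cast
  ring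

theorem zz_le (i : ℕ) (p : Nat.Primes) {s : ℂ} {σ : ℝ} (hs : σ ≤ s.re) :
    ‖zz i p s‖ ≤ ((p : ℕ) : ℝ) ^ ((i : ℝ) / 2 - σ) := by
  rw [zz_norm]
  exact Real.rpow_le_rpow_of_exponent_le (by exact_mod_cast p.2.one_lt.le) (by linarith)

theorem pow_le_two (i : ℕ) (p : Nat.Primes) {σ : ℝ} (hσ : (i : ℝ) / 2 < σ) :
    ((p : ℕ) : ℝ) ^ ((i : ℝ) / 2 - σ) ≤ (2 : ℝ) ^ ((i : ℝ) / 2 - σ) :=
  Real.rpow_le_rpow_of_nonpos (by norm_num) (by exact_mod_cast p.2.two_le) (by linarith)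

theorem y_bounds (i : ℕ) {σ : ℝ} (hσ : (i : ℝ) / 2 < σ) :
    0 < (2 : ℝ) ^ ((i : ℝ) / 2 - σ) ∧ (2 : ℝ) ^ ((i : ℝ) / 2 - σ) < 1 :=
  ⟨by positivity, Real.rpow_lt_one_of_one_lt_of_neg (by norm_num) (by linarith)⟩

theorem zz_diff (i : ℕ) (p : Nat.Primes) (s : ℂ) : DifferentiableAt ℂ (zz i p) s := by
  unfold zz
  refine DifferentiableAt.const_mul ?_ _
  refine DifferentiableAt.const_cpow differentiableAt_id.neg (Or.inl ?_)
  exact_mod_cast p.2.ne_zero

/-- the local exponents of the polynomial `g` -/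
noncomputable def th (n i : ℕ) {F : Type} [Field F] [Fintype F] [DecidableEq F] (g : F[X])
    (m : ℕ) : ℝ := pR (pn n i) (uu g m)

open Classical in
theorem goodFactor_eq' {f : ℤ[X]} {p : Nat.Primes} (n i : ℕ) (h : GoodPrime f 1 p)
    (hodd : Odd f.natDegree) (s : ℂ) :
    goodFactor n i f 1 p s = Ex (th n i (red f p)) (zz i p s) := by
  have hp1 : (0 : ℝ) < p := by exact_mod_cast p.2.pos
  unfold goodFactor Ex
  congr 1
  refine tsum_congr fun m => ?_
  congr 1
  have h1 := traceH1_T h hodd (m + 1) (Nat.succ_ne_zero m)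
  have h0 := sq_pos (F := ZMod p)
  have h2 : ((traceH n i f 1 p (m + 1) : ℤ) : ℝ) =
      (AV.sq (ZMod p) ^ (m + 1)) ^ i * th n i (red f p) (m + 1) := by
    unfold traceH th
    refine coeff_real n i _ _ _ _ ?_ ?_
    · rw [h1]
      unfold uu
      push_cast
      field_simp
    · push_cast
      rw [← pow_mul, mul_comm (m + 1) 2, pow_mul, sq_sq, ZMod.card]
  have h3 : ((traceH n i f 1 p (m + 1) : ℤ) : ℂ) =
      (((AV.sq (ZMod p) ^ (m + 1)) ^ i * th n i (red f p) (m + 1) : ℝ) : ℂ) := by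
    rw [← h2]
    push_cast
    rfl
  have h4 : ((p : ℕ) : ℂ) ^ (-((m + 1 : ℂ) * s)) = (((p : ℕ) : ℂ) ^ (-s)) ^ (m + 1) := by
    rw [← Complex.cpow_nat_mul]
    congr 1
    push_cast
    ring
  rw [h3, h4]
  unfold zz
  push_cast
  ring

/-- bound of the polynomial on the disc of radius `5 d` -/
noncomputable def Cp (n i d : ℕ) : ℝ :=
  ∑ j ∈ range ((pn n i).natDegree + 1), |((pn n i).coeff j : ℝ)| * ((5 * d : ℕ) : ℝ) ^ j

theorem th_bd (n i : ℕ) {F : Type} [Field F] [Fintype F] [DecidableEq F] (hF : ringChar F ≠ 2)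
    {g : F[X]} (hg : g.Monic) (hodd : Odd g.natDegree) (m : ℕ) :
    |th n i g (m + 1)| ≤ Cp n i g.natDegree := by
  unfold th Cp
  rw [pR_eq _ _ le_rfl]
  refine (abs_sum_le_sum_abs _ _).trans (sum_le_sum fun j _ => ?_)
  rw [abs_mul, abs_pow]
  have := uu_bd hF hg hodd (m + 1) (by omega)
  gcongr

/-- the Euler factor as a function on `(ℤ/p)^k` -/
noncomputable def gH (n i : ℕ) (f : ℤ[X]) (k : ℕ) (s : ℂ) (p : Nat.Primes)
    (a : Fin k → ZMod p) : ℂ := by
  classical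
  exact if (p : ℕ) = 2 then 1 else
    if (fam (red f p) a).Separable then Ex (th n i (fam (red f p) a)) (zz i p s) else 1

/-- the local mean -/
noncomputable def EH (n i : ℕ) (f : ℤ[X]) (k : ℕ) (p : Nat.Primes) (s : ℂ) : ℂ :=
  (∑ a : Fin k → ZMod p, gH n i f k s p a) / ((p : ℕ) : ℂ) ^ k

variable {f : ℤ[X]} {n i k : ℕ}

theorem factor_eqH (hf : f.Monic) (hodd : Odd f.natDegree) (hk : k ≤ f.natDegree)
    (c : Fin k → ℤ) (p : Nat.Primes) (s : ℂ) :
    eulerHi n i (member f c) p s = gH n i f k s p fun j => (c j : ZMod p) := by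
  classical
  obtain ⟨hm, hd⟩ := member_monic hf hk c
  unfold eulerHi gH
  by_cases h2 : (p : ℕ) = 2
  · rw [if_pos h2, if_neg]
    rw [good_iff hm]
    exact fun h => h.1 h2
  · rw [if_neg h2, ← red_member]
    by_cases h3 : (red (member f c) p).Separable
    · have hg : GoodPrime (member f c) 1 p := (good_iff hm p).2 ⟨h2, h3⟩
      rw [if_pos h3, if_pos hg, goodFactor_eq' n i hg (by rwa [hd]) s]
    · rw [if_neg h3, if_neg]
      rw [good_iff hm]
      exact fun h => h3 h.2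

theorem th_bd' (hf : f.Monic) (hodd : Odd f.natDegree) (hk : k ≤ f.natDegree) {p : Nat.Primes}
    (h2 : (p : ℕ) ≠ 2) (a : Fin k → ZMod p) (m : ℕ) :
    |th n i (fam (red f p) a) (m + 1)| ≤ Cp n i f.natDegree := by
  obtain ⟨h3, h4, h5⟩ := red_fam hf hodd hk p a
  have := th_bd n i (odd_ringChar h2) h3 h4 m
  rwa [h5] at this

theorem gH_sub_one (hf : f.Monic) (hodd : Odd f.natDegree) (hk : k ≤ f.natDegree)
    (p : Nat.Primes) (a : Fin k → ZMod p) {σ : ℝ} (hσ : (i : ℝ) / 2 < σ) {s : ℂ}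
    (hs : σ ≤ s.re) :
    ‖gH n i f k s p a - 1‖ ≤ K1 (Cp n i f.natDegree / (1 - (2 : ℝ) ^ ((i : ℝ) / 2 - σ))) *
      ((p : ℕ) : ℝ) ^ ((i : ℝ) / 2 - σ) := by
  obtain ⟨hy0, hy1⟩ := y_bounds i hσ
  have h1y : 0 < 1 - (2 : ℝ) ^ ((i : ℝ) / 2 - σ) := by linarith
  have hC : 0 ≤ Cp n i f.natDegree := by unfold Cp; positivity
  have hK : 0 ≤ K1 (Cp n i f.natDegree / (1 - (2 : ℝ) ^ ((i : ℝ) / 2 - σ))) := by
    unfold K1; positivity
  unfold gH
  split_ifs with h2 h3
  · rw [sub_self, norm_zero]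
    positivity
  · refine (Ex_sub_one (th_bd' hf hodd hk h2 a) ((zz_le i p hs).trans (pow_le_two i p hσ))
      hy1).trans ?_
    exact mul_le_mul_of_nonneg_left (zz_le i p hs) hK
  · rw [sub_self, norm_zero]
    positivity

theorem EH_sub_one_le (p : Nat.Primes) (s : ℂ) (B : ℝ)
    (h : ∀ a : Fin k → ZMod p, ‖gH n i f k s p a - 1‖ ≤ B) : ‖EH n i f k p s - 1‖ ≤ B := by
  have hp : (0 : ℝ) < ((p : ℕ) : ℝ) ^ k := by
    have : (0 : ℝ) < p := by exact_mod_cast p.2.pos
    positivity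
  have hp' : ((p : ℕ) : ℂ) ^ k ≠ 0 := pow_ne_zero _ (by exact_mod_cast p.2.ne_zero)
  have h1 : EH n i f k p s - 1 =
      (∑ a : Fin k → ZMod p, (gH n i f k s p a - 1)) / ((p : ℕ) : ℂ) ^ k := by
    unfold EH
    rw [sum_sub_distrib, sum_const, card_univ, Fintype.card_fun, Fintype.card_fin, ZMod.card,
      nsmul_one, sub_div]
    congr 1
    push_cast
    rw [div_self hp']
  rw [h1, norm_div, norm_pow, Complex.norm_natCast, div_le_iff₀ hp]
  refine (norm_sum_le _ _).trans ((sum_le_card_nsmul _ _ B fun a _ => h a).trans_eq ?_)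
  rw [card_univ, Fintype.card_fun, Fintype.card_fin, ZMod.card, nsmul_eq_mul, mul_comm]
  push_cast
  rfl

/-! ### averages of polynomials in the traces -/

section ex

variable {F : Type} [Field F] [Fintype F] [DecidableEq F] {g : F[X]}

theorem av_pR {k : ℕ} (p : ℤ[X]) (u : (Fin k → F) → ℝ) (μ : ℕ → ℤ) (C : ℕ → ℝ)
    (h : ∀ j, j ≤ p.natDegree → |av F (fun c => u c ^ j) - μ j| ≤ C j / Fintype.card F) :
    |av F (fun c => pR p (u c)) - expect μ p| ≤
      (∑ j ∈ range (p.natDegree + 1), |(p.coeff j : ℝ)| * C j) / Fintype.card F := by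
  have h1 : av F (fun c => pR p (u c)) =
      ∑ j ∈ range (p.natDegree + 1), (p.coeff j : ℝ) * av F (fun c => u c ^ j) := by
    have h2 : (fun c : Fin k → F => pR p (u c)) =
        fun c => ∑ j ∈ range (p.natDegree + 1), (p.coeff j : ℝ) * u c ^ j := by
      funext c
      exact pR_eq p _ le_rfl
    rw [h2, av_sum]
    exact sum_congr rfl fun j _ => av_mul _ _
  have h2 : ((expect μ p : ℤ) : ℝ) =
      ∑ j ∈ range (p.natDegree + 1), (p.coeff j : ℝ) * (μ j : ℝ) := by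
    unfold expect
    push_cast
    rfl
  rw [h1, h2, ← sum_sub_distrib, sum_div]
  refine (abs_sum_le_sum_abs _ _).trans (sum_le_sum fun j hj => ?_)
  rw [← mul_sub, abs_mul, mul_div_assoc]
  rw [mem_range] at hj
  exact mul_le_mul_of_nonneg_left (h j (by omega)) (abs_nonneg _)

/-- constants -/
noncomputable def D1 (d : ℕ) (p : ℤ[X]) : ℝ :=
  ∑ j ∈ range (p.natDegree + 1), |(p.coeff j : ℝ)| * CJ (5 * d + 2 : ℕ) j

/-- constants -/
noncomputable def D2 (d : ℕ) (p : ℤ[X]) : ℝ :=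
  ∑ j ∈ range (p.natDegree + 1), |(p.coeff j : ℝ)| * C2 d j

theorem C2_nonneg (d j : ℕ) : 0 ≤ C2 d j := by
  unfold C2
  have h1 : ∀ l, 0 ≤ CJ ((5 * d + 2 : ℕ) : ℝ) l + CG l := fun l =>
    add_nonneg (CJ_nonneg (by positivity) l) (CG_nonneg l)
  have h2 : 0 ≤ ∑ l ∈ range (j + 1), (j.choose l : ℝ) * 2 ^ l *
      (CJ ((5 * d + 2 : ℕ) : ℝ) l + CG l) := sum_nonneg fun l _ => by
    have := h1 l
    positivity
  positivity

theorem D1_nonneg (d : ℕ) (p : ℤ[X]) : 0 ≤ D1 d p :=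
  sum_nonneg fun j _ => mul_nonneg (abs_nonneg _) (CJ_nonneg (by positivity) j)

theorem D2_nonneg (d : ℕ) (p : ℤ[X]) : 0 ≤ D2 d p :=
  sum_nonneg fun j _ => mul_nonneg (abs_nonneg _) (C2_nonneg d j)

/-- constants -/
noncomputable def DD (d n i : ℕ) : ℝ :=
  D1 d (pn n i) + (D1 d (pn n i ^ 2) + 2 * |(aa n i : ℝ)| * D1 d (pn n i) + D2 d (pn n i))

/-- the reduced exponents -/
noncomputable def Th (n i : ℕ) (g : F[X]) (m : ℕ) : ℝ := th n i g m + rho (aa n i) (bb n i) m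

theorem av_first (hF : ringChar F ≠ 2) (hf : g.Monic) (hodd : Odd g.natDegree) {k : ℕ}
    (hk : k ≤ g.natDegree) (hki : 2 * i ≤ k) :
    |av F (fun c : Fin k → F => Th n i (fam g c) 1)| ≤ DD g.natDegree n i / Fintype.card F := by
  have hq0 : (0 : ℝ) < Fintype.card F := cardF_pos
  have hdeg := pn_natDegree n i
  have h1 := av_pR (F := F) (pn n i) (fun c : Fin k → F => uu (fam g c) 1) (gm 1)
    (fun j => CJ (5 * g.natDegree + 2 : ℕ) j) (fun j hj => by
      rw [gm_cast, Int.cast_one]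
      exact mom_one hF hf hodd hk j (by omega))
  have h2 : av F (fun c : Fin k → F => Th n i (fam g c) 1) =
      av F (fun c : Fin k → F => pR (pn n i) (uu (fam g c) 1)) - (aa n i : ℝ) := by
    have h3 : (fun c : Fin k → F => Th n i (fam g c) 1) =
        fun c => pR (pn n i) (uu (fam g c) 1) - (aa n i : ℝ) := by
      funext c
      unfold Th th rho
      ring
    rw [h3, av_sub, av_const]
  rw [h2]
  refine h1.trans ?_
  have h4 := D1_nonneg g.natDegree (pn n i ^ 2)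
  have h5 := D1_nonneg g.natDegree (pn n i)
  have h6 := D2_nonneg g.natDegree (pn n i)
  have h7 : 0 ≤ 2 * |(aa n i : ℝ)| * D1 g.natDegree (pn n i) := by positivity
  apply div_le_div_of_nonneg_right _ hq0.le
  unfold DD
  have h8 : D1 g.natDegree (pn n i) = ∑ j ∈ range ((pn n i).natDegree + 1),
      |((pn n i).coeff j : ℝ)| * CJ (5 * g.natDegree + 2 : ℕ) j := rfl
  rw [← h8]
  linarith

theorem av_second (hF : ringChar F ≠ 2) (hf : g.Monic) (hodd : Odd g.natDegree) {k : ℕ}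
    (hk : k ≤ g.natDegree) (hki : 2 * i ≤ k) :
    |av F (fun c : Fin k → F => Th n i (fam g c) 1 ^ 2 + Th n i (fam g c) 2)| ≤
      DD g.natDegree n i / Fintype.card F := by
  have hq0 : (0 : ℝ) < Fintype.card F := cardF_pos
  have hdeg := pn_natDegree n i
  have hdeg2 : (pn n i ^ 2).natDegree ≤ 2 * i := by
    rw [natDegree_pow]
    omega
  have h1 := av_pR (F := F) (pn n i) (fun c : Fin k → F => uu (fam g c) 1) (gm 1)
    (fun j => CJ (5 * g.natDegree + 2 : ℕ) j) (fun j hj => by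
      rw [gm_cast, Int.cast_one]
      exact mom_one hF hf hodd hk j (by omega))
  have h2 := av_pR (F := F) (pn n i ^ 2) (fun c : Fin k → F => uu (fam g c) 1) (gm 1)
    (fun j => CJ (5 * g.natDegree + 2 : ℕ) j) (fun j hj => by
      rw [gm_cast, Int.cast_one]
      exact mom_one hF hf hodd hk j (by omega))
  have h3 := av_pR (F := F) (pn n i) (fun c : Fin k → F => uu (fam g c) 2) em
    (fun j => C2 g.natDegree j) (fun j hj => mom_two hF hf hodd hk j (by omega))
  set A1 := av F (fun c : Fin k → F => pR (pn n i) (uu (fam g c) 1)) with hA1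
  set A2 := av F (fun c : Fin k → F => pR (pn n i ^ 2) (uu (fam g c) 1)) with hA2
  set A3 := av F (fun c : Fin k → F => pR (pn n i) (uu (fam g c) 2)) with hA3
  set a : ℝ := (aa n i : ℝ) with ha
  set b : ℝ := (bb n i : ℝ) with hb
  have hab : 2 * b = (expect (gm 1) (pn n i ^ 2) : ℝ) + (expect em (pn n i) : ℝ) - a * (a + 1) := by
    rw [hb, ha]
    exact_mod_cast two_bb n i
  have h4 : av F (fun c : Fin k → F => Th n i (fam g c) 1 ^ 2 + Th n i (fam g c) 2) =
      (A2 - (expect (gm 1) (pn n i ^ 2) : ℝ)) - 2 * a * (A1 - a) +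
        (A3 - (expect em (pn n i) : ℝ)) := by
    have h5 : (fun c : Fin k → F => Th n i (fam g c) 1 ^ 2 + Th n i (fam g c) 2) =
        fun c => ((pR (pn n i ^ 2) (uu (fam g c) 1) - (2 * a) * pR (pn n i) (uu (fam g c) 1)) +
          pR (pn n i) (uu (fam g c) 2)) + (a ^ 2 - a - 2 * b) := by
      funext c
      have h6 : pR (pn n i ^ 2) (uu (fam g c) 1) = pR (pn n i) (uu (fam g c) 1) ^ 2 := by
        rw [pow_two, pR_mul, ← pow_two]
      rw [h6]
      unfold Th th rho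
      rw [← ha, ← hb]
      ring
    rw [h5, av_add, av_add, av_sub, av_mul, av_const, ← hA1, ← hA2, ← hA3]
    linear_combination (norm := ring1) (-1 : ℝ) * hab
  rw [h4]
  have e1 : D1 g.natDegree (pn n i) = ∑ j ∈ range ((pn n i).natDegree + 1),
      |((pn n i).coeff j : ℝ)| * CJ (5 * g.natDegree + 2 : ℕ) j := rfl
  have e2 : D1 g.natDegree (pn n i ^ 2) = ∑ j ∈ range ((pn n i ^ 2).natDegree + 1),
      |((pn n i ^ 2).coeff j : ℝ)| * CJ (5 * g.natDegree + 2 : ℕ) j := rfl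
  have e3 : D2 g.natDegree (pn n i) = ∑ j ∈ range ((pn n i).natDegree + 1),
      |((pn n i).coeff j : ℝ)| * C2 g.natDegree j := rfl
  rw [← e1] at h1
  rw [← e2] at h2
  rw [← e3] at h3
  have h7 : |2 * a * (A1 - a)| ≤ 2 * |a| * (D1 g.natDegree (pn n i) / Fintype.card F) := by
    rw [abs_mul, abs_mul, abs_two]
    exact mul_le_mul_of_nonneg_left h1 (by positivity)
  refine (abs_add_le _ _).trans ((add_le_add ((abs_sub _ _).trans (add_le_add h2 h7)) h3).trans ?_)
  have h5 := D1_nonneg g.natDegree (pn n i)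
  unfold DD
  rw [← ha, add_div, add_div, add_div]
  have h8 : 0 ≤ D1 g.natDegree (pn n i) / Fintype.card F := by positivity
  have h9 : 2 * |a| * (D1 g.natDegree (pn n i) / (Fintype.card F : ℝ)) =
      2 * |a| * D1 g.natDegree (pn n i) / (Fintype.card F : ℝ) := by ring
  rw [h9]
  linarith

end ex

/-- bound of the reduced exponents -/
noncomputable def BB (d n i : ℕ) : ℝ := Cp n i d + (|(aa n i : ℝ)| + 2 * |(bb n i : ℝ)|)

theorem Cp_nonneg (n i d : ℕ) : 0 ≤ Cp n i d := by unfold Cp; positivity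

/-- the factors of the regular part of the mean -/
noncomputable def NH (n i : ℕ) (f : ℤ[X]) (k : ℕ) (p : Nat.Primes) (s : ℂ) : ℂ :=
  EH n i f k p s * Ex (rho (aa n i) (bb n i)) (zz i p s)

/-- the bound -/
noncomputable def UH (n i : ℕ) (f : ℤ[X]) (σ : ℝ) (p : Nat.Primes) : ℝ :=
  (2 * f.natDegree * K1 (BB f.natDegree n i / (1 - (2 : ℝ) ^ ((i : ℝ) / 2 - σ))) +
      2 * DD f.natDegree n i +
      2 * K1 (BB f.natDegree n i / (1 - (2 : ℝ) ^ ((i : ℝ) / 2 - σ)))) *
    ((p : ℕ) : ℝ) ^ (((i : ℝ) / 2 - σ) - 1) +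
  K3 (BB f.natDegree n i / (1 - (2 : ℝ) ^ ((i : ℝ) / 2 - σ))) *
    ((p : ℕ) : ℝ) ^ (3 * ((i : ℝ) / 2 - σ))

theorem UH_summable {σ : ℝ} (hσ : (i : ℝ) / 2 + 1 / 3 < σ) : Summable (UH n i f σ) := by
  unfold UH
  refine Summable.add (Summable.mul_left _ ?_) (Summable.mul_left _ ?_)
  · exact Nat.Primes.summable_rpow.2 (by linarith)
  · exact Nat.Primes.summable_rpow.2 (by linarith)

theorem NH_sub_one (hf : f.Monic) (hodd : Odd f.natDegree) (hk1 : 1 ≤ k) (hk : k ≤ f.natDegree)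
    (hki : 2 * i ≤ k) (p : Nat.Primes) {σ : ℝ} (hσ : (i : ℝ) / 2 < σ) {s : ℂ} (hs : σ ≤ s.re) :
    ‖NH n i f k p s - 1‖ ≤ UH n i f σ p := by
  classical
  obtain ⟨hy0, hy1⟩ := y_bounds i hσ
  set y₀ : ℝ := (2 : ℝ) ^ ((i : ℝ) / 2 - σ) with hy
  have h1y : 0 < 1 - y₀ := by linarith
  have hz := zz_le i p hs
  have hz2 := hz.trans (pow_le_two i p hσ)
  have hp0 : (0 : ℝ) < p := by exact_mod_cast p.2.pos
  have hBB : 0 ≤ BB f.natDegree n i := by
    unfold BB
    have := Cp_nonneg n i f.natDegree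
    positivity
  have hDD : 0 ≤ DD f.natDegree n i := by
    unfold DD
    have h4 := D1_nonneg f.natDegree (pn n i ^ 2)
    have h5 := D1_nonneg f.natDegree (pn n i)
    have h6 := D2_nonneg f.natDegree (pn n i)
    positivity
  set A : ℝ := BB f.natDegree n i / (1 - y₀) with hA
  have hA0 : 0 ≤ A := by positivity
  have hK1 : 0 ≤ K1 A := by unfold K1; positivity
  have hK3 : 0 ≤ K3 A := by unfold K3; positivity
  set P : ℝ := ((p : ℕ) : ℝ) ^ ((i : ℝ) / 2 - σ) with hP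
  have hP0 : 0 < P := by positivity
  have e1 : ((p : ℕ) : ℝ) ^ (((i : ℝ) / 2 - σ) - 1) = P / p := by
    rw [Real.rpow_sub hp0, Real.rpow_one]
  have e2 : ((p : ℕ) : ℝ) ^ (3 * ((i : ℝ) / 2 - σ)) = P ^ 3 := by
    rw [hP, mul_comm, Real.rpow_mul hp0.le]
    norm_num
  have hρ : ∀ m, |rho (aa n i) (bb n i) (m + 1)| ≤ BB f.natDegree n i := by
    intro m
    refine (rho_bd _ _ _).trans ?_
    unfold BB
    have := Cp_nonneg n i f.natDegree
    linarith
  unfold UH
  rw [← hy, ← hA, e1, e2]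
  by_cases h2 : (p : ℕ) = 2
  · have h3 : NH n i f k p s = Ex (rho (aa n i) (bb n i)) (zz i p s) := by
      unfold NH EH gH
      simp only [if_pos h2]
      rw [sum_const, card_univ, Fintype.card_fun, Fintype.card_fin, ZMod.card, nsmul_one]
      push_cast
      rw [div_self (pow_ne_zero _ (by exact_mod_cast p.2.ne_zero)), one_mul]
    rw [h3]
    refine (Ex_sub_one hρ hz2 hy1).trans ?_
    have h4 : K1 A * ‖zz i p s‖ ≤ 2 * K1 A * (P / p) := by
      have h5 : (p : ℝ) = 2 := by exact_mod_cast h2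
      rw [h5]
      have := mul_le_mul_of_nonneg_left hz hK1
      linarith
    have h6 : 0 ≤ (2 * f.natDegree * K1 A + 2 * DD f.natDegree n i) * (P / p) := by positivity
    have h7 : 0 ≤ K3 A * P ^ 3 := by positivity
    rw [add_mul]
    linarith
  · have hF := odd_ringChar h2
    have hrm := red_monic hf p
    have hrd := red_natDegree hf p
    set Z : Finset (Fin k → ZMod p) :=
      univ.filter fun a => ¬ (fam (red f p) a).Separable with hZ
    have hTh : ∀ (c : Fin k → ZMod p) m, |Th n i (fam (red f p) c) (m + 1)| ≤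
        BB f.natDegree n i := by
      intro c m
      unfold Th
      refine (abs_add_le _ _).trans ?_
      unfold BB
      exact add_le_add (th_bd' hf hodd hk h2 c m) (rho_bd _ _ _)
    have h3 := avg_Ex (fun c : Fin k → ZMod p => Th n i (fam (red f p) c))
      (rho (aa n i) (bb n i)) Z hTh hρ (bad_count hf hk1 hk p) (z := zz i p s)
      (C := DD f.natDegree n i)
      (by
        have := av_first (n := n) (i := i) hF hrm (by rwa [hrd]) (k := k) (by rwa [hrd]) hki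
        rwa [hrd] at this)
      (by
        have := av_second (n := n) (i := i) hF hrm (by rwa [hrd]) (k := k) (by rwa [hrd]) hki
        rwa [hrd] at this) hz2 hy1
    have h4 : NH n i f k p s = (∑ c : Fin k → ZMod p, if c ∈ Z then
        Ex (rho (aa n i) (bb n i)) (zz i p s) else
        Ex (Th n i (fam (red f p) c)) (zz i p s)) / (Fintype.card (ZMod p) : ℂ) ^ k := by
      unfold NH EH
      rw [ZMod.card, div_mul_eq_mul_div, sum_mul]
      congr 1
      refine sum_congr rfl fun c _ => ?_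
      unfold gH
      rw [if_neg h2]
      have h5 : c ∈ Z ↔ ¬ (fam (red f p) c).Separable := by
        rw [hZ, mem_filter]
        simp
      by_cases h6 : (fam (red f p) c).Separable
      · rw [if_pos h6, if_neg (fun h => (h5.1 h) h6)]
        exact (Ex_add (th_bd' hf hodd hk h2 c) hρ (lt_of_le_of_lt hz2 hy1)).symm
      · rw [if_neg h6, if_pos (h5.2 h6), one_mul]
    rw [h4]
    refine h3.trans ?_
    rw [ZMod.card, ← hA]
    have g1 : ‖zz i p s‖ / ((p : ℕ) : ℝ) ≤ P / p := by gcongr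
    have g2 : ‖zz i p s‖ ^ 3 ≤ P ^ 3 := pow_le_pow_left₀ (norm_nonneg _) hz 3
    refine add_le_add (mul_le_mul ?_ g1 (by positivity) (by positivity))
      (mul_le_mul_of_nonneg_left g2 hK3)
    linarith

theorem gH_diff (hf : f.Monic) (hodd : Odd f.natDegree) (hk : k ≤ f.natDegree) (p : Nat.Primes)
    (a : Fin k → ZMod p) {s : ℂ} (hs : (i : ℝ) / 2 < s.re) :
    DifferentiableAt ℂ (fun s => gH n i f k s p a) s := by
  unfold gH
  by_cases h2 : (p : ℕ) = 2
  · simp_rw [if_pos h2]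
    exact differentiableAt_const 1
  · simp_rw [if_neg h2]
    by_cases h3 : (fam (red f p) a).Separable
    swap
    · simp_rw [if_neg h3]
      exact differentiableAt_const 1
    · simp_rw [if_pos h3]
      have h6 : ‖zz i p s‖ < 1 :=
        ((zz_le i p le_rfl).trans (pow_le_two i p hs)).trans_lt (y_bounds i hs).2
      exact DifferentiableAt.comp (g := Ex (th n i (fam (red f p) a))) s
        (Ex_diff (th_bd' hf hodd hk h2 a) h6) (zz_diff i p s)

theorem NH_diff (hf : f.Monic) (hodd : Odd f.natDegree) (hk : k ≤ f.natDegree) (p : Nat.Primes)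
    {s : ℂ} (hs : (i : ℝ) / 2 < s.re) : DifferentiableAt ℂ (NH n i f k p) s := by
  unfold NH
  have h6 : ‖zz i p s‖ < 1 :=
    ((zz_le i p le_rfl).trans (pow_le_two i p hs)).trans_lt (y_bounds i hs).2
  refine DifferentiableAt.mul ?_ ?_
  · unfold EH
    refine DifferentiableAt.div_const ?_ _
    exact DifferentiableAt.fun_sum fun a _ => gH_diff hf hodd hk p a hs
  · exact DifferentiableAt.comp (g := Ex (rho (aa n i) (bb n i))) s
      (Ex_diff (fun m => rho_bd _ _ (m + 1)) h6) (zz_diff i p s)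

theorem Ex_pos (θ : ℕ → ℝ) (x : ℝ) : ∃ r : ℝ, 0 < r ∧ Ex θ (x : ℂ) = r := by
  refine ⟨Real.exp (∑' m : ℕ, θ (m + 1) * x ^ (m + 1) / (m + 1 : ℝ)), Real.exp_pos _, ?_⟩
  unfold Ex
  rw [Complex.ofReal_exp, Complex.ofReal_tsum]
  congr 1
  refine tsum_congr fun m => ?_
  push_cast
  rfl

theorem zz_real (i : ℕ) (p : Nat.Primes) (σ : ℝ) :
    zz i p (σ : ℂ) = ((AV.sq (ZMod p) ^ i * ((p : ℕ) : ℝ) ^ (-σ) : ℝ) : ℂ) := by
  unfold zz
  push_cast
  rw [Complex.ofReal_cpow (by positivity)]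
  push_cast
  rfl

theorem NH_pos (p : Nat.Primes) (σ : ℝ) : ∃ r : ℝ, 0 < r ∧ NH n i f k p (σ : ℂ) = r := by
  have h1 : ∀ a : Fin k → ZMod p, ∃ r : ℝ, 0 < r ∧ gH n i f k (σ : ℂ) p a = r := by
    intro a
    unfold gH
    split_ifs
    · exact ⟨1, one_pos, by simp⟩
    · rw [zz_real]
      exact Ex_pos _ _
    · exact ⟨1, one_pos, by simp⟩
  choose r hr1 hr2 using h1
  obtain ⟨t, ht1, ht2⟩ : ∃ t : ℝ, 0 < t ∧ Ex (rho (aa n i) (bb n i)) (zz i p (σ : ℂ)) = t := by
    rw [zz_real]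
    exact Ex_pos _ _
  have hp : (0 : ℝ) < p := by exact_mod_cast p.2.pos
  refine ⟨(∑ a, r a) / ((p : ℕ) : ℝ) ^ k * t,
    mul_pos (div_pos (sum_pos (fun a _ => hr1 a) ⟨0, mem_univ _⟩) (by positivity)) ht1, ?_⟩
  unfold NH EH
  rw [sum_congr rfl fun a _ => hr2 a, ht2]
  push_cast
  rfl

/-- the regular part of the mean -/
noncomputable def NN (n i : ℕ) (f : ℤ[X]) (k : ℕ) (s : ℂ) : ℂ := ∏' p : Nat.Primes, NH n i f k p s

theorem NN_diff (hf : f.Monic) (hodd : Odd f.natDegree) (hk1 : 1 ≤ k) (hk : k ≤ f.natDegree)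
    (hki : 2 * i ≤ k) : DifferentiableOn ℂ (NN n i f k) {s : ℂ | (i : ℝ) / 2 + 1 / 3 < s.re} :=
  diff_of (NH n i f k) _ (UH n i f) (fun σ hσ => UH_summable hσ)
    (fun σ hσ s hs p => NH_sub_one hf hodd hk1 hk hki p (by linarith) hs)
    (fun p s hs => NH_diff hf hodd hk p (by linarith))

theorem NN_pos (hf : f.Monic) (hodd : Odd f.natDegree) (hk1 : 1 ≤ k) (hk : k ≤ f.natDegree)
    (hki : 2 * i ≤ k) {σ : ℝ} (hσ : (i : ℝ) / 2 + 1 / 3 < σ) :
    ∃ r : ℝ, 0 < r ∧ NN n i f k (σ : ℂ) = r :=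
  pos_of _ (UH n i f σ) (UH_summable hσ)
    (fun p => NH_sub_one hf hodd hk1 hk hki p (by linarith) (by simp))
    (fun p => NH_pos p σ)

/-- finite products of Euler factors -/
theorem mean_finiteH (hf : f.Monic) (hodd : Odd f.natDegree) (hk : k ≤ f.natDegree)
    (S : Finset Nat.Primes) (s : ℂ) :
    Tendsto (fun H : Fin k → ℕ => mean H fun c => ∏ p ∈ S, eulerHi n i (member f c) p s) atTop
      (𝓝 (∏ p ∈ S, EH n i f k p s)) := by
  have := nz
  have h1 := mean_prod k S (gH n i f k s)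
  refine h1.congr fun H => ?_
  congr 1
  funext c
  exact prod_congr rfl fun p _ => (factor_eqH hf hodd hk c p s).symm

/-- the mean of the `L`-functions -/
theorem mean_LH (hf : f.Monic) (hodd : Odd f.natDegree) (hk : k ≤ f.natDegree)
    {s : ℂ} (hs : (i : ℝ) / 2 + 1 < s.re) :
    Tendsto (fun H : Fin k → ℕ => mean H fun c => LHi n i (member f c) s) atTop
      (𝓝 (∏' p, EH n i f k p s)) ∧ Multipliable fun p => EH n i f k p s := by
  have hs2 : (i : ℝ) / 2 < s.re := by linarith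
  set u : Nat.Primes → ℝ := fun p =>
    K1 (Cp n i f.natDegree / (1 - (2 : ℝ) ^ ((i : ℝ) / 2 - s.re))) *
      ((p : ℕ) : ℝ) ^ ((i : ℝ) / 2 - s.re) with hu
  have hsum : Summable u := Summable.mul_left _ (Nat.Primes.summable_rpow.2 (by linarith))
  have hg : ∀ (p : Nat.Primes) (a : Fin k → ZMod p), ‖gH n i f k s p a - 1‖ ≤ u p :=
    fun p a => gH_sub_one hf hodd hk p a hs2 le_rfl
  have hE : ∀ p, ‖EH n i f k p s - 1‖ ≤ u p := fun p => EH_sub_one_le p s (u p) (hg p)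
  refine ⟨?_, multipliable_of _ u hsum hE⟩
  rw [Metric.tendsto_atTop]
  intro ε hε
  obtain ⟨S, hS⟩ := tail_small u hsum (by positivity : (0 : ℝ) < ε / 3)
  have h1 := mean_finiteH (n := n) (i := i) hf hodd hk S s
  rw [Metric.tendsto_atTop] at h1
  obtain ⟨N, hN⟩ := h1 (ε / 3) (by positivity)
  refine ⟨N, fun H hH => ?_⟩
  have h2 := hN H hH
  rw [dist_eq_norm] at h2 ⊢
  have h3 : ‖mean H (fun c => LHi n i (member f c) s) -
      mean H (fun c => ∏ p ∈ S, eulerHi n i (member f c) p s)‖ ≤ ε / 3 := by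
    rw [← mean_sub]
    refine norm_mean_le H _ _ fun c => ?_
    have h4 := prod_tail (fun p => eulerHi n i (member f c) p s) u hsum (fun p => by
      rw [factor_eqH hf hodd hk c p s]
      exact hg p _) S
    exact h4.trans hS.le
  have h5 : ‖∏' p, EH n i f k p s - ∏ p ∈ S, EH n i f k p s‖ ≤ ε / 3 :=
    (prod_tail (fun p => EH n i f k p s) u hsum hE S).trans hS.le
  calc ‖mean H (fun c => LHi n i (member f c) s) - ∏' p, EH n i f k p s‖
      = ‖(mean H (fun c => LHi n i (member f c) s) -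
          mean H (fun c => ∏ p ∈ S, eulerHi n i (member f c) p s)) +
        (mean H (fun c => ∏ p ∈ S, eulerHi n i (member f c) p s) - ∏ p ∈ S, EH n i f k p s) -
        (∏' p, EH n i f k p s - ∏ p ∈ S, EH n i f k p s)‖ := by
          congr 1
          ring
    _ ≤ ‖mean H (fun c => LHi n i (member f c) s) -
          mean H (fun c => ∏ p ∈ S, eulerHi n i (member f c) p s)‖ +
        ‖mean H (fun c => ∏ p ∈ S, eulerHi n i (member f c) p s) - ∏ p ∈ S, EH n i f k p s‖ +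
        ‖∏' p, EH n i f k p s - ∏ p ∈ S, EH n i f k p s‖ :=
          (norm_sub_le _ _).trans (add_le_add (norm_add_le _ _) le_rfl)
    _ < ε := by linarith

/-- the product of the correction factors -/
theorem rho_hasProd (a b : ℤ) {s : ℂ} (hs : (i : ℝ) / 2 + 1 < s.re) :
    HasProd (fun p => Ex (rho a b) (zz i p s))
      (riemannZeta (s - i / 2) ^ (-a) * riemannZeta (2 * s - i) ^ (-b)) := by
  have r1 : 1 < (s - i / 2).re := by
    have : (s - i / 2).re = s.re - i / 2 := by simp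
    rw [this]
    linarith
  have r2 : 1 < (2 * s - i).re := by
    have : (2 * s - i).re = 2 * s.re - i := by simp
    rw [this]
    linarith
  have h1 := riemannZeta_eulerProduct_hasProd r1
  have h2 := riemannZeta_eulerProduct_hasProd r2
  have z1 : riemannZeta (s - i / 2) ≠ 0 := riemannZeta_ne_zero_of_one_le_re r1.le
  have z2 : riemannZeta (2 * s - i) ≠ 0 := riemannZeta_ne_zero_of_one_le_re r2.le
  have h3 := (Filter.Tendsto.zpow₀ h1 (-a) (Or.inl z1)).mul
    (Filter.Tendsto.zpow₀ h2 (-b) (Or.inl z2))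
  refine Filter.Tendsto.congr (fun S => ?_) h3
  rw [← prod_zpow, ← prod_zpow, ← prod_mul_distrib]
  refine prod_congr rfl fun p _ => ?_
  have hz : ‖zz i p s‖ < 1 :=
    ((zz_le i p le_rfl).trans (pow_le_two i p (by linarith))).trans_lt (y_bounds i (by linarith)).2
  have h4 := Ex_rho a b hz
  rw [zz_sq, zz_eq] at h4
  change (1 - ((p : ℕ) : ℂ) ^ (-(s - i / 2)))⁻¹ ^ (-a) *
    (1 - ((p : ℕ) : ℂ) ^ (-(2 * s - i)))⁻¹ ^ (-b) = Ex (rho a b) (zz i p s)
  rw [zz_eq, h4, inv_zpow, inv_zpow, zpow_neg, zpow_neg, inv_inv, inv_inv]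

theorem mean_eq (hf : f.Monic) (hodd : Odd f.natDegree) (hk : k ≤ f.natDegree) {s : ℂ}
    (hs : (i : ℝ) / 2 + 1 < s.re) : ∏' p, EH n i f k p s =
      riemannZeta (s - i / 2) ^ aa n i * riemannZeta (2 * s - i) ^ bb n i * NN n i f k s := by
  have r1 : 1 < (s - i / 2).re := by
    have : (s - i / 2).re = s.re - i / 2 := by simp
    rw [this]
    linarith
  have r2 : 1 < (2 * s - i).re := by
    have : (2 * s - i).re = 2 * s.re - i := by simp
    rw [this]
    linarith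
  have z1 : riemannZeta (s - i / 2) ≠ 0 := riemannZeta_ne_zero_of_one_le_re r1.le
  have z2 : riemannZeta (2 * s - i) ≠ 0 := riemannZeta_ne_zero_of_one_le_re r2.le
  have h1 := (mean_LH (n := n) hf hodd hk hs).2.hasProd.mul (rho_hasProd (aa n i) (bb n i) hs)
  have h2 : NN n i f k s = (∏' p, EH n i f k p s) *
      (riemannZeta (s - i / 2) ^ (-aa n i) * riemannZeta (2 * s - i) ^ (-bb n i)) := h1.tprod_eq
  rw [h2, zpow_neg, zpow_neg]
  have key : ∀ x y E : ℂ, x ≠ 0 → y ≠ 0 → E = x * y * (E * (x⁻¹ * y⁻¹)) := by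
    intro x y E hx hy
    field_simp
  exact key _ _ _ (zpow_ne_zero (aa n i) z1) (zpow_ne_zero (bb n i) z2)

end Pool.Agent.P8H9.PW
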