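import Pool.Agent.P8H9.PV.Fam

/-! Moments of sums of characters over irreducible polynomials of one degree. -/

set_option autoImplicit false

namespace Pool.Agent.P8H9.PW

open Polynomial Finset Pool.Agent.H341R2.Sharp Pool.Agent.P8H9.AV Pool.Agent.P8H9.PV

universe u

section flip

variable {F : Type u} [Field F] [Fintype F] [DecidableEq F]

/-- a permutation of the family which changes the sign of the character at one irreducible polynomial -/
theorem exists_perm (hF : ringChar F ≠ 2) (f : F[X]) {k : ℕ} (P₀ : F[X]) (hP₀ : P₀.Monic)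
    (hi₀ : Irreducible P₀) (S : Finset F[X]) (hS : ∀ P ∈ S, P.Monic ∧ Irreducible P)
    (hne : P₀ ∉ S) (hdeg : P₀.natDegree + ∑ P ∈ S, P.natDegree ≤ k) :
    ∃ σ : Equiv.Perm (Fin k → F), (∀ c, lam (fam f (σ c)) P₀ = -lam (fam f c) P₀) ∧
      ∀ P ∈ S, ∀ c, lam (fam f (σ c)) P = lam (fam f c) P := by
  classical
  obtain ⟨ρ, hρ1, hρ2⟩ := exists_flip hF hP₀ hi₀
  set Q' : F[X] := ∏ P ∈ S, P with hQ'
  set Q : F[X] := P₀ * Q' with hQ
  have hmon' : Q'.Monic := monic_prod_of_monic S _ fun P hP => (hS P hP).1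
  have hmonQ : Q.Monic := hP₀.mul hmon'
  have hdegQ : Q.natDegree ≤ k := by
    rw [hQ, hP₀.natDegree_mul hmon', natDegree_prod_of_monic S _ fun P hP => (hS P hP).1]
    exact hdeg
  have hcop : IsCoprime P₀ Q' := by
    refine IsCoprime.prod_right fun P hP => ?_
    refine (hi₀.coprime_iff_not_dvd.2 fun h => hne ?_)
    have := (eq_of_monic_of_associated hP₀ (hS P hP).1 (hi₀.associated_of_dvd (hS P hP).2 h))
    rwa [this]
  obtain ⟨u, v, huv⟩ := hcop
  set t : F[X] := (ρ - 1) * (v * Q') with ht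
  have hcopr : IsCoprime (1 + t) Q := by
    rw [hQ]
    refine IsCoprime.mul_right ?_ ?_
    · refine IsCoprime.symm (hi₀.coprime_iff_not_dvd.2 fun h => hρ1 ?_)
      have h1 : 1 + t = ρ + P₀ * (-(ρ - 1) * u) := by
        have : v * Q' = 1 - u * P₀ := by rw [← huv]; ring
        rw [ht, this]
        ring
      rw [h1] at h
      exact (dvd_add_left (dvd_mul_right _ _)).1 h
    · refine ⟨1, -((ρ - 1) * v), ?_⟩
      rw [ht]
      ring
  let δ : (Fin k → F) → F[X] := fun c => (t * fam f c) %ₘ Q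
  have hδdeg : ∀ c, (δ c).degree < k := fun c =>
    (degree_modByMonic_lt _ hmonQ).trans_le
      ((degree_le_natDegree).trans (by exact_mod_cast hdegQ))
  have hδdvd : ∀ c, Q ∣ (t * fam f c) - δ c := by
    intro c
    have := modByMonic_add_div (t * fam f c) Q
    refine ⟨(t * fam f c) /ₘ Q, ?_⟩
    change t * fam f c - (t * fam f c) %ₘ Q = _
    linear_combination (norm := ring1) -this
  let σ : (Fin k → F) → (Fin k → F) := fun c j => c j + (δ c).coeff j
  have hσ : ∀ c, fam f (σ c) = fam f c + δ c := fun c => fam_add f c (δ c) (hδdeg c)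
  have hinj : Function.Injective σ := by
    intro c c' h
    have h1 : fam f c + δ c = fam f c' + δ c' := by rw [← hσ, ← hσ, h]
    have h2 : Q ∣ (1 + t) * (fam f c - fam f c') := by
      have h3 : (1 + t) * (fam f c - fam f c') =
          ((t * fam f c) - δ c) - ((t * fam f c') - δ c') + ((fam f c + δ c) - (fam f c' + δ c')) := by
        ring
      rw [h3, h1, sub_self, add_zero]
      exact dvd_sub (hδdvd c) (hδdvd c')
    have h4 : Q ∣ fam f c - fam f c' := hcopr.symm.dvd_of_dvd_mul_left h2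
    have h5 : δ c = δ c' := by
      have h6 : (t * (fam f c - fam f c')) %ₘ Q = 0 :=
        (modByMonic_eq_zero_iff_dvd hmonQ).2 (h4.mul_left t)
      rw [mul_sub, sub_modByMonic] at h6
      exact sub_eq_zero.1 h6
    rw [h5] at h1
    exact fam_injective f (add_right_cancel h1)
  have hbij : Function.Bijective σ := Finite.injective_iff_bijective.1 hinj
  refine ⟨Equiv.ofBijective σ hbij, fun c => ?_, fun P hP c => ?_⟩
  · change lam (fam f (σ c)) P₀ = _
    rw [← hρ2]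
    refine lam_congr hF hP₀ hi₀ ?_
    rw [hσ]
    have h2 : P₀ ∣ (t * fam f c) - δ c := (dvd_mul_right P₀ Q').trans (hδdvd c)
    have h3 : fam f c + δ c - ρ * fam f c =
        -((t * fam f c) - δ c) + P₀ * (-(ρ - 1) * u * fam f c) := by
      have : v * Q' = 1 - u * P₀ := by rw [← huv]; ring
      rw [ht, this]
      ring
    rw [h3]
    exact dvd_add (dvd_neg.2 h2) (dvd_mul_right _ _)
  · change lam (fam f (σ c)) P = _
    refine lam_congr hF (hS P hP).1 (hS P hP).2 ?_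
    rw [hσ, add_sub_cancel_left]
    have h5 : P ∣ Q' := dvd_prod_of_mem (fun P => P) hP
    have h6 : P ∣ (t * fam f c) - δ c := (h5.mul_left P₀).trans (hδdvd c)
    have h7 : P ∣ t * fam f c := by
      rw [ht]
      exact ((h5.mul_left v).mul_left (ρ - 1)).mul_right _
    exact (dvd_sub_right h7).1 h6

/-- odd functions of one character against powers of a sum of others -/
theorem sum_odd (hF : ringChar F ≠ 2) (f : F[X]) {k D r : ℕ} (P₀ : F[X]) (hP₀ : P₀.Monic)
    (hi₀ : Irreducible P₀) (hd₀ : P₀.natDegree = D) (J : Finset F[X])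
    (hJ : ∀ P ∈ J, P.Monic ∧ Irreducible P ∧ P.natDegree = D) (hne : P₀ ∉ J)
    (hr : (r + 1) * D ≤ k) (φ : ℤ → ℝ) (hφ : ∀ x, φ (-x) = -φ x) :
    ∑ c : Fin k → F, φ (lam (fam f c) P₀) * (∑ P ∈ J, (lam (fam f c) P : ℝ)) ^ r = 0 := by
  classical
  simp_rw [sum_pow', mul_sum]
  rw [sum_comm]
  refine sum_eq_zero fun ψ hψ => ?_
  rw [Fintype.mem_piFinset] at hψ
  have hS : ∀ P ∈ univ.image ψ, P.Monic ∧ Irreducible P := by
    intro P hP
    obtain ⟨i, -, rfl⟩ := mem_image.1 hP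
    exact ⟨(hJ _ (hψ i)).1, (hJ _ (hψ i)).2.1⟩
  have hne' : P₀ ∉ univ.image ψ := by
    intro h
    obtain ⟨i, -, h1⟩ := mem_image.1 h
    exact hne (h1 ▸ hψ i)
  have hdeg : P₀.natDegree + ∑ P ∈ univ.image ψ, P.natDegree ≤ k := by
    have h1 : ∑ P ∈ univ.image ψ, P.natDegree = (univ.image ψ).card * D := by
      rw [sum_congr rfl fun P hP => ?_, sum_const, smul_eq_mul]
      obtain ⟨i, -, rfl⟩ := mem_image.1 hP
      exact (hJ _ (hψ i)).2.2
    have h2 : (univ.image ψ).card ≤ r := by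
      refine card_image_le.trans ?_
      simp
    rw [h1, hd₀]
    have := Nat.mul_le_mul_right D h2
    nlinarith
  obtain ⟨σ, h1, h2⟩ := exists_perm hF f P₀ hP₀ hi₀ (univ.image ψ) hS hne' hdeg
  have h3 := Equiv.sum_comp σ fun c => φ (lam (fam f c) P₀) * ∏ i, (lam (fam f c) (ψ i) : ℝ)
  have h4 : ∀ c, φ (lam (fam f (σ c)) P₀) * ∏ i, (lam (fam f (σ c)) (ψ i) : ℝ) =
      -(φ (lam (fam f c) P₀) * ∏ i, (lam (fam f c) (ψ i) : ℝ)) := by
    intro c
    rw [h1, hφ, neg_mul]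
    congr 2
    refine prod_congr rfl fun i _ => ?_
    rw [h2 (ψ i) (mem_image_of_mem ψ (mem_univ i))]
  simp_rw [h4] at h3
  rw [sum_neg_distrib] at h3
  linarith

open Classical in
/-- few members are divisible by a given irreducible polynomial -/
theorem card_dvd (f : F[X]) {k : ℕ} {P : F[X]} (hd : P.natDegree ≤ k) (hP : P.Monic) :
    (univ.filter fun c : Fin k → F => P ∣ fam f c).card * Fintype.card F ^ P.natDegree ≤
      Fintype.card F ^ k := by
  set D := P.natDegree with hD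
  set Z := univ.filter fun c : Fin k → F => P ∣ fam f c with hZ
  -- translates
  let δ : (Fin D → F) → F[X] := fun e => ∑ j : Fin D, C (e j) * X ^ (j : ℕ)
  have hδ : ∀ e, (δ e).degree < (D : ℕ) := fun e => degree_sum_fin_lt e
  let Ψ : (Fin k → F) × (Fin D → F) → (Fin k → F) := fun x j => x.1 j + (δ x.2).coeff j
  have hΨ : ∀ x, fam f (Ψ x) = fam f x.1 + δ x.2 := fun x =>
    fam_add f x.1 (δ x.2) ((hδ x.2).trans_le (by exact_mod_cast hd))
  have hδinj : Function.Injective δ := by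
    intro e e' h
    funext j
    have h1 := congrArg (fun g => g.coeff (j : ℕ)) h
    simp only [δ, finsetSum_coeff, coeff_C_mul, coeff_X_pow, Fin.val_inj] at h1
    simpa using h1
  have hinj : Set.InjOn Ψ (Z ×ˢ (univ : Finset (Fin D → F)) : Finset _) := by
    intro x hx y hy h
    rw [mem_coe, mem_product, hZ, mem_filter] at hx hy
    have h1 : fam f x.1 + δ x.2 = fam f y.1 + δ y.2 := by rw [← hΨ, ← hΨ, h]
    have h2 : P ∣ δ x.2 - δ y.2 := by
      have h3 : δ x.2 - δ y.2 = fam f y.1 - fam f x.1 := by linear_combination h1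
      rw [h3]
      exact dvd_sub hy.1.2 hx.1.2
    have h3 : δ x.2 - δ y.2 = 0 := by
      refine eq_zero_of_dvd_of_degree_lt h2 ?_
      rw [degree_eq_natDegree hP.ne_zero]
      exact (degree_sub_le _ _).trans_lt (max_lt (hδ x.2) (hδ y.2))
    have h4 : x.2 = y.2 := hδinj (sub_eq_zero.1 h3)
    have h5 : x.1 = y.1 := by
      rw [h4] at h1
      exact fam_injective f (add_right_cancel h1)
    exact Prod.ext h5 h4
  have h1 := card_le_card_of_injOn (s := Z ×ˢ (univ : Finset (Fin D → F)))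
    (t := (univ : Finset (Fin k → F))) Ψ (fun _ _ => mem_univ _) hinj
  rw [card_product, card_univ, card_univ, Fintype.card_fun, Fintype.card_fun, Fintype.card_fin,
    Fintype.card_fin] at h1
  exact h1

end flip

section rec

/-- the moments of a centred normal variable of variance `v` -/
def gm {R : Type*} [CommSemiring R] (v : R) : ℕ → R
  | 0 => 1
  | 1 => 0
  | (m + 2) => v * ((m + 1 : ℕ) : R) * gm v m

/-- binomial expansion with remainder -/
theorem binom_rem (x s : ℝ) (hx : |x| ≤ 1) {A : ℝ} (hA : 1 ≤ A) (hs : |s| ≤ A) (m : ℕ) :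
    |(x + s) ^ m - (s ^ m + m * (x * s ^ (m - 1)) + (m.choose 2 : ℝ) * (x ^ 2 * s ^ (m - 2)))| *
      A ^ 3 ≤ 3 * 2 ^ m * A ^ m := by
  have hA0 : 0 < A := by linarith
  rcases Nat.lt_or_ge m 3 with h | h
  · have h1 : (x + s) ^ m - (s ^ m + m * (x * s ^ (m - 1)) +
        (m.choose 2 : ℝ) * (x ^ 2 * s ^ (m - 2))) = 0 := by
      interval_cases m
      · simp
      · simp; ring
      · norm_num [Nat.choose]; ring
    rw [h1, abs_zero, zero_mul]
    positivity
  · have h1 : (x + s) ^ m - (s ^ m + m * (x * s ^ (m - 1)) +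
        (m.choose 2 : ℝ) * (x ^ 2 * s ^ (m - 2))) =
        ∑ l ∈ (range (m + 1)).filter (fun l => 3 ≤ l), x ^ l * s ^ (m - l) * (m.choose l : ℝ) := by
      rw [add_pow, sub_eq_iff_eq_add]
      have h2 : range (m + 1) = (range (m + 1)).filter (fun l => 3 ≤ l) ∪ {0, 1, 2} := by
        ext l
        simp only [mem_union, mem_filter, mem_range, mem_insert, mem_singleton]
        omega
      have h3 : Disjoint ((range (m + 1)).filter (fun l => 3 ≤ l)) {0, 1, 2} := by
        rw [disjoint_left]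
        intro l hl
        simp only [mem_filter, mem_insert, mem_singleton] at hl ⊢
        omega
      conv_lhs => rw [h2, sum_union h3]
      congr 1
      rw [sum_insert (by simp), sum_insert (by simp), sum_singleton]
      simp
      ring
    rw [h1]
    have h4 : |∑ l ∈ (range (m + 1)).filter (fun l => 3 ≤ l), x ^ l * s ^ (m - l) * (m.choose l : ℝ)| ≤
        ∑ l ∈ (range (m + 1)).filter (fun l => 3 ≤ l), A ^ (m - 3) * (m.choose l : ℝ) := by
      refine (abs_sum_le_sum_abs _ _).trans (sum_le_sum fun l hl => ?_)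
      rw [mem_filter, mem_range] at hl
      rw [abs_mul, abs_mul, abs_pow, abs_pow, Nat.abs_cast]
      gcongr
      calc |x| ^ l * |s| ^ (m - l) ≤ 1 * A ^ (m - 3) := by
            refine mul_le_mul (pow_le_one₀ (abs_nonneg x) hx) ?_ (by positivity) zero_le_one
            calc |s| ^ (m - l) ≤ A ^ (m - l) := pow_le_pow_left₀ (abs_nonneg s) hs _
              _ ≤ A ^ (m - 3) := pow_le_pow_right₀ hA (by omega)
        _ = A ^ (m - 3) := one_mul _
    have h5 : ∑ l ∈ (range (m + 1)).filter (fun l => 3 ≤ l), A ^ (m - 3) * (m.choose l : ℝ) ≤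
        A ^ (m - 3) * 2 ^ m := by
      rw [← mul_sum]
      gcongr
      have h6 : ∑ l ∈ (range (m + 1)).filter (fun l => 3 ≤ l), (m.choose l : ℝ) ≤
          ∑ l ∈ range (m + 1), (m.choose l : ℝ) :=
        sum_le_sum_of_subset_of_nonneg (filter_subset _ _) fun _ _ _ => by positivity
      refine h6.trans_eq ?_
      have := Nat.sum_range_choose m
      exact_mod_cast this
    have h7 : A ^ (m - 3) * A ^ 3 = A ^ m := by
      rw [← pow_add]
      congr 1
      omega
    calc _ ≤ (A ^ (m - 3) * 2 ^ m) * A ^ 3 :=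
          mul_le_mul_of_nonneg_right (h4.trans h5) (by positivity)
      _ = 2 ^ m * A ^ m := by rw [← h7]; ring
      _ ≤ 3 * 2 ^ m * A ^ m := by
        have : 0 ≤ (2 : ℝ) ^ m * A ^ m := by positivity
        linarith

end rec

section mom

variable {F : Type u} [Field F] [Fintype F] [DecidableEq F]

/-- the average over the family -/
noncomputable def av (F : Type u) [Fintype F] {k : ℕ} (Φ : (Fin k → F) → ℝ) : ℝ :=
  (∑ c, Φ c) / (Fintype.card F : ℝ) ^ k

omit [Field F] [DecidableEq F] in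
theorem av_add {k : ℕ} (Φ Ψ : (Fin k → F) → ℝ) :
    av F (fun c => Φ c + Ψ c) = av F Φ + av F Ψ := by
  unfold av
  rw [sum_add_distrib, add_div]

omit [Field F] [DecidableEq F] in
theorem av_sub {k : ℕ} (Φ Ψ : (Fin k → F) → ℝ) :
    av F (fun c => Φ c - Ψ c) = av F Φ - av F Ψ := by
  unfold av
  rw [sum_sub_distrib, sub_div]

omit [Field F] [DecidableEq F] in
theorem av_mul {k : ℕ} (a : ℝ) (Φ : (Fin k → F) → ℝ) :
    av F (fun c => a * Φ c) = a * av F Φ := by
  unfold av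
  rw [← mul_sum, mul_div_assoc]

omit [Field F] [DecidableEq F] in
theorem av_sum {k : ℕ} {ι : Type*} (s : Finset ι) (Φ : ι → (Fin k → F) → ℝ) :
    av F (fun c => ∑ i ∈ s, Φ i c) = ∑ i ∈ s, av F (Φ i) := by
  unfold av
  rw [sum_comm, sum_div]

theorem cardF_pos : (0 : ℝ) < Fintype.card F := by exact_mod_cast Fintype.card_pos (α := F)

omit [DecidableEq F] in
theorem av_const {k : ℕ} (a : ℝ) : av F (fun _ : Fin k → F => a) = a := by
  unfold av
  rw [sum_const, card_univ, Fintype.card_fun, Fintype.card_fin, nsmul_eq_mul]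
  have : (0 : ℝ) < Fintype.card F := by exact_mod_cast Fintype.card_pos (α := F)
  push_cast
  field_simp

omit [DecidableEq F] in
theorem av_abs_le {k : ℕ} (Φ : (Fin k → F) → ℝ) (B : ℝ) (h : ∀ c, |Φ c| ≤ B) : |av F Φ| ≤ B := by
  have h0 : (0 : ℝ) < (Fintype.card F : ℝ) ^ k := by
    have : (0 : ℝ) < Fintype.card F := by exact_mod_cast Fintype.card_pos (α := F)
    positivity
  unfold av
  rw [abs_div, abs_of_pos h0, div_le_iff₀ h0]
  refine (abs_sum_le_sum_abs _ _).trans ((sum_le_card_nsmul _ _ B fun c _ => h c).trans_eq ?_)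
  rw [card_univ, Fintype.card_fun, Fintype.card_fin, nsmul_eq_mul, mul_comm]
  push_cast
  rfl

/-- the sum of the characters over a set of polynomials -/
noncomputable def SJ (J : Finset F[X]) (g : F[X]) : ℝ := ∑ P ∈ J, (lam g P : ℝ)

theorem lam_abs (g P : F[X]) : |(lam g P : ℝ)| ≤ 1 := by
  unfold lam
  rcases quadraticChar_isQuadratic F (resultant P g P.natDegree g.natDegree) with h | h | h <;>
    rw [h] <;> simp

theorem SJ_erase {J : Finset F[X]} {P : F[X]} (hP : P ∈ J) (g : F[X]) :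
    SJ J g = lam g P + SJ (J.erase P) g := by
  classical
  unfold SJ
  exact (add_sum_erase J (fun P => (lam g P : ℝ)) hP).symm

/-- one step of the recursion, for one polynomial -/
theorem step_one (hF : ringChar F ≠ 2) (f : F[X]) {k D m : ℕ} (hm : 1 ≤ m) (J : Finset F[X])
    (hJ : ∀ P ∈ J, P.Monic ∧ Irreducible P ∧ P.natDegree = D) (hk : (m + 1) * D ≤ k) {A Q : ℝ}
    (hQ : 0 < Q) (hQ2 : Q ^ 2 = (Fintype.card F : ℝ) ^ D) (hA1 : 1 ≤ A) (hAQ : Q ≤ A)
    {P : F[X]} (hP : P ∈ J) (hA : ∀ c : Fin k → F, |SJ (J.erase P) (fam f c)| ≤ A) :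
    |av F (fun c : Fin k → F => (lam (fam f c) P : ℝ) * SJ J (fam f c) ^ m) -
      m * av F (fun c : Fin k → F => SJ J (fam f c) ^ (m - 1))| ≤
      7 * m * 2 ^ m * A ^ (m - 1) / Q ^ 2 := by
  classical
  obtain ⟨hP1, hP2, hP3⟩ := hJ P hP
  have hA0 : 0 < A := by linarith
  have hJ' : ∀ P' ∈ J.erase P, P'.Monic ∧ Irreducible P' ∧ P'.natDegree = D :=
    fun P' h => hJ P' (mem_of_mem_erase h)
  have hnot : P ∉ J.erase P := notMem_erase P J
  set x : (Fin k → F) → ℝ := fun c => (lam (fam f c) P : ℝ) with hx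
  set s : (Fin k → F) → ℝ := fun c => SJ (J.erase P) (fam f c) with hs
  have hx1 : ∀ c, |x c| ≤ 1 := fun c => lam_abs _ _
  have hS : ∀ c, SJ J (fam f c) = x c + s c := fun c => SJ_erase hP _
  obtain ⟨l, rfl⟩ : ∃ l, m = l + 1 := ⟨m - 1, by omega⟩
  have hl : l + 1 - 1 = l := by omega
  rw [hl]
  -- remainders
  set R1 : (Fin k → F) → ℝ := fun c => (x c + s c) ^ (l + 1) - (s c ^ (l + 1) +
    (l + 1 : ℕ) * (x c * s c ^ l) + ((l + 1).choose 2 : ℝ) * (x c ^ 2 * s c ^ (l + 1 - 2))) with hR1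
  set R2 : (Fin k → F) → ℝ := fun c => (x c + s c) ^ l - (s c ^ l +
    l * (x c * s c ^ (l - 1)) + (l.choose 2 : ℝ) * (x c ^ 2 * s c ^ (l - 2))) with hR2
  have b1 : ∀ c, |R1 c| ≤ 3 * 2 ^ (l + 1) * (A ^ l / Q ^ 2) := by
    intro c
    have h1 := binom_rem (x c) (s c) (hx1 c) hA1 (hA c) (l + 1)
    rw [hl] at h1
    have h2 : |R1 c| * A ^ 3 ≤ 3 * 2 ^ (l + 1) * A ^ (l + 1) := h1
    have h3 : |R1 c| * A ^ 2 ≤ 3 * 2 ^ (l + 1) * A ^ l := by
      have h4 : (|R1 c| * A ^ 2) * A ≤ (3 * 2 ^ (l + 1) * A ^ l) * A := by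
        calc (|R1 c| * A ^ 2) * A = |R1 c| * A ^ 3 := by ring
          _ ≤ _ := h2
          _ = _ := by ring
      exact le_of_mul_le_mul_right h4 hA0
    rw [mul_div_assoc', le_div_iff₀ (by positivity)]
    refine le_trans ?_ h3
    gcongr
  have b2 : ∀ c, |R2 c| ≤ 3 * 2 ^ l * (A ^ l / Q ^ 2) := by
    intro c
    have h2 : |R2 c| * A ^ 3 ≤ 3 * 2 ^ l * A ^ l :=
      binom_rem (x c) (s c) (hx1 c) hA1 (hA c) l
    rw [mul_div_assoc', le_div_iff₀ (by positivity)]
    refine le_trans ?_ h2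
    have h3 : Q ^ 2 ≤ A ^ 3 := by
      calc Q ^ 2 ≤ A ^ 2 := by gcongr
        _ ≤ A ^ 3 := pow_le_pow_right₀ hA1 (by norm_num)
    gcongr
  have b3 : ∀ c, |(l.choose 2 : ℝ) * (x c ^ 2 * s c ^ (l - 2))| ≤ 2 ^ l * (A ^ l / Q ^ 2) := by
    intro c
    rcases Nat.lt_or_ge l 2 with h | h
    · rw [Nat.choose_eq_zero_of_lt h]
      simp only [Nat.cast_zero, zero_mul, abs_zero]
      positivity
    · rw [abs_mul, Nat.abs_cast, abs_mul, abs_pow, abs_pow]
      have h1 : (l.choose 2 : ℝ) ≤ 2 ^ l := by exact_mod_cast Nat.choose_le_two_pow l 2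
      have h2 : |x c| ^ 2 * |s c| ^ (l - 2) ≤ A ^ l / Q ^ 2 := by
        rw [le_div_iff₀ (by positivity)]
        calc |x c| ^ 2 * |s c| ^ (l - 2) * Q ^ 2 ≤ 1 * A ^ (l - 2) * A ^ 2 := by
              refine mul_le_mul (mul_le_mul (pow_le_one₀ (abs_nonneg _) (hx1 c))
                (pow_le_pow_left₀ (abs_nonneg _) (hA c) _) (by positivity) zero_le_one)
                (by gcongr) (by positivity) (by positivity)
          _ = A ^ l := by
            rw [one_mul, ← pow_add]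
            congr 1
            omega
      exact mul_le_mul h1 h2 (by positivity) (by positivity)
  have b4 : |av F (fun c : Fin k → F => (1 - x c ^ 2) * s c ^ l)| ≤ A ^ l / Q ^ 2 := by
    have h0 : (0 : ℝ) < (Fintype.card F : ℝ) ^ k := by
      have : (0 : ℝ) < Fintype.card F := by exact_mod_cast Fintype.card_pos (α := F)
      positivity
    have h1 : ∀ c : Fin k → F, |(1 - x c ^ 2) * s c ^ l| ≤
        if P ∣ fam f c then A ^ l else 0 := by
      intro c
      split_ifs with h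
      · have h2 : x c = 0 := by
          rw [hx]
          simp only
          rw [lam_eq_zero hF hP1 hP2 h]
          simp
        rw [h2]
        norm_num
        exact pow_le_pow_left₀ (abs_nonneg _) (hA c) _
      · have h2 : x c ^ 2 = 1 := by
          obtain ⟨E, _, _, _, φ, -, -, h3, h4⟩ := lam_irr hF hP1 hP2
          rw [hx]
          simp only
          rw [h4]
          have h5 : φ (fam f c) ≠ 0 := fun h6 => h ((h3 _).1 h6)
          have h6 := quadraticChar_sq_one h5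
          exact_mod_cast h6
        rw [h2]
        simp
    unfold av
    rw [abs_div, abs_of_pos h0, div_le_iff₀ h0]
    refine (abs_sum_le_sum_abs _ _).trans ((sum_le_sum fun c _ => h1 c).trans ?_)
    rw [← sum_filter, sum_const, nsmul_eq_mul]
    have hDk : P.natDegree ≤ k := by
      rw [hP3]
      nlinarith
    have h2 := card_dvd f hDk hP1
    rw [hP3] at h2
    have h3 : ((univ.filter fun c : Fin k → F => P ∣ fam f c).card : ℝ) * Q ^ 2 ≤
        (Fintype.card F : ℝ) ^ k := by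
      rw [hQ2]
      exact_mod_cast h2
    rw [div_mul_eq_mul_div, le_div_iff₀ (by positivity)]
    calc ((univ.filter fun c : Fin k → F => P ∣ fam f c).card : ℝ) * A ^ l * Q ^ 2
        = A ^ l * (((univ.filter fun c : Fin k → F => P ∣ fam f c).card : ℝ) * Q ^ 2) := by ring
      _ ≤ A ^ l * (Fintype.card F : ℝ) ^ k := by gcongr
  -- vanishing averages
  have v1 : av F (fun c : Fin k → F => x c * s c ^ (l + 1)) = 0 := by
    unfold av
    have := sum_odd hF f P hP1 hP2 hP3 (J.erase P) hJ' hnot hk (fun y => (y : ℝ))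
      (fun y => by push_cast; rfl)
    rw [hx, hs]
    unfold SJ
    rw [this, zero_div]
  have v2 : av F (fun c : Fin k → F => x c ^ 3 * s c ^ (l + 1 - 2)) = 0 := by
    unfold av
    have := sum_odd hF f P hP1 hP2 hP3 (J.erase P) hJ' hnot (r := l + 1 - 2)
      (le_trans (Nat.mul_le_mul_right D (by omega)) hk) (fun y => (y : ℝ) ^ 3)
      (fun y => by push_cast; ring)
    rw [hx, hs]
    unfold SJ
    rw [this, zero_div]
  have v3 : av F (fun c : Fin k → F => x c * s c ^ (l - 1)) = 0 := by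
    unfold av
    have := sum_odd hF f P hP1 hP2 hP3 (J.erase P) hJ' hnot (r := l - 1)
      (le_trans (Nat.mul_le_mul_right D (by omega)) hk) (fun y => (y : ℝ))
      (fun y => by push_cast; rfl)
    rw [hx, hs]
    unfold SJ
    rw [this, zero_div]
  -- the identity
  have e1 : av F (fun c : Fin k → F => x c * SJ J (fam f c) ^ (l + 1)) =
      ((l + 1 : ℕ) : ℝ) * av F (fun c : Fin k → F => s c ^ l) -
      ((l + 1 : ℕ) : ℝ) * av F (fun c : Fin k → F => (1 - x c ^ 2) * s c ^ l) +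
      av F (fun c : Fin k → F => x c * R1 c) := by
    have h1 : (fun c : Fin k → F => x c * SJ J (fam f c) ^ (l + 1)) = fun c =>
        ((((x c * s c ^ (l + 1)) + ((l + 1 : ℕ) : ℝ) * s c ^ l) -
          ((l + 1 : ℕ) : ℝ) * ((1 - x c ^ 2) * s c ^ l)) +
          ((l + 1).choose 2 : ℝ) * (x c ^ 3 * s c ^ (l + 1 - 2))) + x c * R1 c := by
      funext c
      rw [hS c, hR1]
      ring
    rw [h1, av_add, av_add, av_sub, av_add, av_mul, av_mul, av_mul, v1, v2]
    ring
  have e2 : av F (fun c : Fin k → F => SJ J (fam f c) ^ l) =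
      av F (fun c : Fin k → F => s c ^ l) +
      av F (fun c : Fin k → F => (l.choose 2 : ℝ) * (x c ^ 2 * s c ^ (l - 2))) +
      av F (fun c : Fin k → F => R2 c) := by
    have h1 : (fun c : Fin k → F => SJ J (fam f c) ^ l) = fun c =>
        ((s c ^ l + (l : ℝ) * (x c * s c ^ (l - 1))) +
          ((l.choose 2 : ℝ) * (x c ^ 2 * s c ^ (l - 2)))) + R2 c := by
      funext c
      rw [hS c, hR2]
      ring
    rw [h1, av_add, av_add, av_add, av_mul, v3]
    ring
  have e3 : av F (fun c : Fin k → F => x c * SJ J (fam f c) ^ (l + 1)) -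
      ((l + 1 : ℕ) : ℝ) * av F (fun c : Fin k → F => SJ J (fam f c) ^ l) =
      -(((l + 1 : ℕ) : ℝ) * av F (fun c : Fin k → F => (1 - x c ^ 2) * s c ^ l)) -
      ((l + 1 : ℕ) : ℝ) * av F (fun c : Fin k → F => (l.choose 2 : ℝ) * (x c ^ 2 * s c ^ (l - 2))) -
      ((l + 1 : ℕ) : ℝ) * av F (fun c : Fin k → F => R2 c) +
      av F (fun c : Fin k → F => x c * R1 c) := by
    rw [e1, e2]
    ring
  rw [e3]
  set E : ℝ := A ^ l / Q ^ 2 with hE
  have hE0 : 0 ≤ E := by positivity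
  have c2 := av_abs_le (F := F) _ _ b3
  have c3 := av_abs_le (F := F) _ _ b2
  have c4 : |av F (fun c : Fin k → F => x c * R1 c)| ≤ 3 * 2 ^ (l + 1) * E := by
    refine av_abs_le (F := F) _ _ fun c => ?_
    rw [abs_mul]
    calc |x c| * |R1 c| ≤ 1 * (3 * 2 ^ (l + 1) * E) :=
          mul_le_mul (hx1 c) (b1 c) (abs_nonneg _) zero_le_one
      _ = _ := one_mul _
  have hL : (0 : ℝ) < ((l + 1 : ℕ) : ℝ) := by positivity
  have hL1 : (1 : ℝ) ≤ ((l + 1 : ℕ) : ℝ) := by exact_mod_cast Nat.succ_le_succ (Nat.zero_le l)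
  have h2l : (1 : ℝ) ≤ 2 ^ l := one_le_pow₀ (by norm_num)
  set a1 := av F (fun c : Fin k → F => (1 - x c ^ 2) * s c ^ l)
  set a2 := av F (fun c : Fin k → F => (l.choose 2 : ℝ) * (x c ^ 2 * s c ^ (l - 2)))
  set a3 := av F (fun c : Fin k → F => R2 c)
  set a4 := av F (fun c : Fin k → F => x c * R1 c)
  have habs : |-(((l + 1 : ℕ) : ℝ) * a1) - ((l + 1 : ℕ) : ℝ) * a2 - ((l + 1 : ℕ) : ℝ) * a3 + a4| ≤
      ((l + 1 : ℕ) : ℝ) * |a1| + ((l + 1 : ℕ) : ℝ) * |a2| + ((l + 1 : ℕ) : ℝ) * |a3| + |a4| := by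
    refine (abs_add_le _ _).trans (add_le_add ?_ le_rfl)
    refine (abs_sub _ _).trans (add_le_add ?_ (by rw [abs_mul, abs_of_pos hL]))
    refine (abs_sub _ _).trans (add_le_add ?_ (by rw [abs_mul, abs_of_pos hL]))
    rw [abs_neg, abs_mul, abs_of_pos hL]
  refine habs.trans ?_
  have g1 : ((l + 1 : ℕ) : ℝ) * |a1| ≤ ((l + 1 : ℕ) : ℝ) * (2 ^ l * E) := by
    gcongr
    refine b4.trans ?_
    nlinarith
  have g2 : ((l + 1 : ℕ) : ℝ) * |a2| ≤ ((l + 1 : ℕ) : ℝ) * (2 ^ l * E) := by gcongr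
  have g3 : ((l + 1 : ℕ) : ℝ) * |a3| ≤ ((l + 1 : ℕ) : ℝ) * (3 * 2 ^ l * E) := by gcongr
  have g4 : |a4| ≤ ((l + 1 : ℕ) : ℝ) * (6 * 2 ^ l * E) := by
    refine c4.trans ?_
    have h1 : 0 ≤ 6 * (2 : ℝ) ^ l * E := by positivity
    rw [pow_succ]
    nlinarith
  calc ((l + 1 : ℕ) : ℝ) * |a1| + ((l + 1 : ℕ) : ℝ) * |a2| + ((l + 1 : ℕ) : ℝ) * |a3| + |a4|
      ≤ ((l + 1 : ℕ) : ℝ) * (2 ^ l * E) + ((l + 1 : ℕ) : ℝ) * (2 ^ l * E) +
        ((l + 1 : ℕ) : ℝ) * (3 * 2 ^ l * E) + ((l + 1 : ℕ) : ℝ) * (6 * 2 ^ l * E) := by linarith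
    _ = 11 * ((l + 1 : ℕ) : ℝ) * 2 ^ l * E := by ring
    _ ≤ 14 * ((l + 1 : ℕ) : ℝ) * 2 ^ l * E := by gcongr; norm_num
    _ = 7 * ((l + 1 : ℕ) : ℝ) * 2 ^ (l + 1) * A ^ l / Q ^ 2 := by
      rw [hE]
      ring

/-- the constants in the asymptotic formula for the moments -/
noncomputable def CJ (B : ℝ) : ℕ → ℝ
  | 0 => 0
  | 1 => 0
  | (m + 2) => (m + 1 : ℕ) * CJ B m + 7 * (m + 1 : ℕ) * 2 ^ (m + 1) * B ^ m

theorem CJ_nonneg {B : ℝ} (hB : 0 ≤ B) : ∀ j, 0 ≤ CJ B j
  | 0 => le_rfl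
  | 1 => le_rfl
  | (m + 2) => by
    have := CJ_nonneg hB m
    unfold CJ
    positivity

/-- **the moments** -/
theorem moment (hF : ringChar F ≠ 2) (f : F[X]) {k D : ℕ} (J : Finset F[X])
    (hJ : ∀ P ∈ J, P.Monic ∧ Irreducible P ∧ P.natDegree = D) {B Q : ℝ} (hQ : 1 ≤ Q)
    (hQ2 : Q ^ 2 = (Fintype.card F : ℝ) ^ D) (hB : 1 ≤ B)
    (hA : ∀ P ∈ J, ∀ c : Fin k → F, |SJ (J.erase P) (fam f c)| ≤ B * Q) (hJc : (J.card : ℝ) ≤ Q ^ 2) :
    ∀ j : ℕ, j * D ≤ k →
    |av F (fun c : Fin k → F => SJ J (fam f c) ^ j) / Q ^ j - gm ((J.card : ℝ) / Q ^ 2) j| ≤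
      CJ B j / Q ^ 2
  | 0 => fun _ => by
    have h1 : av F (fun c : Fin k → F => SJ J (fam f c) ^ 0) = 1 := by
      simp only [pow_zero]
      exact av_const 1
    rw [h1]
    simp [gm, CJ]
  | 1 => fun hk => by
    have h1 : av F (fun c : Fin k → F => SJ J (fam f c) ^ 1) = 0 := by
      simp only [pow_one]
      unfold SJ
      rw [av_sum]
      refine sum_eq_zero fun P hP => ?_
      have h2 := sum_odd hF f P (hJ P hP).1 (hJ P hP).2.1 (hJ P hP).2.2 ∅ (by simp) (by simp)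
        (r := 0) (by simpa using hk) (fun y => (y : ℝ)) (fun y => by push_cast; rfl)
      simp only [pow_zero, mul_one] at h2
      unfold av
      rw [h2, zero_div]
    rw [h1]
    simp [gm, CJ]
  | (m + 2) => fun hk => by
    have hQ0 : 0 < Q := by linarith
    have ih := moment hF f J hJ hQ hQ2 hB hA hJc m (le_trans (Nat.mul_le_mul_right D (by omega)) hk)
    have hstep : ∀ P ∈ J, |av F (fun c : Fin k → F => (lam (fam f c) P : ℝ) *
        SJ J (fam f c) ^ (m + 1)) - ((m + 1 : ℕ) : ℝ) * av F (fun c : Fin k → F => SJ J (fam f c) ^ m)| ≤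
        7 * ((m + 1 : ℕ) : ℝ) * 2 ^ (m + 1) * (B * Q) ^ m / Q ^ 2 := by
      intro P hP
      have := step_one hF f (m := m + 1) (by omega) J hJ hk hQ0 hQ2 (A := B * Q)
        (by nlinarith) (by nlinarith) hP (hA P hP)
      rwa [Nat.add_sub_cancel] at this
    have e1 : av F (fun c : Fin k → F => SJ J (fam f c) ^ (m + 2)) =
        ∑ P ∈ J, av F (fun c : Fin k → F => (lam (fam f c) P : ℝ) * SJ J (fam f c) ^ (m + 1)) := by
      rw [← av_sum]
      congr 1
      funext c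
      rw [← sum_mul, pow_succ' _ (m + 1)]
      rfl
    set a := av F (fun c : Fin k → F => SJ J (fam f c) ^ m) with ha
    have e2 : |av F (fun c : Fin k → F => SJ J (fam f c) ^ (m + 2)) -
        (J.card : ℝ) * (((m + 1 : ℕ) : ℝ) * a)| ≤
        Q ^ 2 * (7 * ((m + 1 : ℕ) : ℝ) * 2 ^ (m + 1) * (B * Q) ^ m / Q ^ 2) := by
      rw [e1, ← nsmul_eq_mul, ← sum_const, ← sum_sub_distrib]
      refine (abs_sum_le_sum_abs _ _).trans ((sum_le_sum hstep).trans ?_)
      rw [sum_const, nsmul_eq_mul]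
      gcongr
    have e3 : |av F (fun c : Fin k → F => SJ J (fam f c) ^ (m + 2)) / Q ^ (m + 2) -
        ((J.card : ℝ) / Q ^ 2) * ((m + 1 : ℕ) : ℝ) * (a / Q ^ m)| ≤
        (7 * ((m + 1 : ℕ) : ℝ) * 2 ^ (m + 1) * B ^ m) / Q ^ 2 := by
      have h1 : av F (fun c : Fin k → F => SJ J (fam f c) ^ (m + 2)) / Q ^ (m + 2) -
          ((J.card : ℝ) / Q ^ 2) * ((m + 1 : ℕ) : ℝ) * (a / Q ^ m) =
          (av F (fun c : Fin k → F => SJ J (fam f c) ^ (m + 2)) -
            (J.card : ℝ) * (((m + 1 : ℕ) : ℝ) * a)) / Q ^ (m + 2) := by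
        rw [pow_add]
        field_simp
      rw [h1, abs_div, abs_of_pos (pow_pos hQ0 _), div_le_div_iff₀ (by positivity) (by positivity)]
      calc _ ≤ (Q ^ 2 * (7 * ((m + 1 : ℕ) : ℝ) * 2 ^ (m + 1) * (B * Q) ^ m / Q ^ 2)) * Q ^ 2 := by
            gcongr
        _ = 7 * ((m + 1 : ℕ) : ℝ) * 2 ^ (m + 1) * B ^ m * Q ^ (m + 2) := by
          rw [mul_pow]
          field_simp
          ring
    have hv0 : 0 ≤ (J.card : ℝ) / Q ^ 2 := by positivity
    have hv1 : (J.card : ℝ) / Q ^ 2 ≤ 1 := by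
      rw [div_le_one (by positivity)]
      exact hJc
    have e4 : gm ((J.card : ℝ) / Q ^ 2) (m + 2) =
        (J.card : ℝ) / Q ^ 2 * ((m + 1 : ℕ) : ℝ) * gm ((J.card : ℝ) / Q ^ 2) m := rfl
    have e5 : CJ B (m + 2) = (m + 1 : ℕ) * CJ B m + 7 * (m + 1 : ℕ) * 2 ^ (m + 1) * B ^ m := rfl
    rw [e4, e5]
    have h6 : |(J.card : ℝ) / Q ^ 2 * ((m + 1 : ℕ) : ℝ) * (a / Q ^ m) -
        (J.card : ℝ) / Q ^ 2 * ((m + 1 : ℕ) : ℝ) * gm ((J.card : ℝ) / Q ^ 2) m| ≤
        ((m + 1 : ℕ) : ℝ) * (CJ B m / Q ^ 2) := by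
      rw [← mul_sub, abs_mul, abs_of_nonneg (by positivity)]
      refine mul_le_mul ?_ ih (abs_nonneg _) (by positivity)
      calc (J.card : ℝ) / Q ^ 2 * ((m + 1 : ℕ) : ℝ) ≤ 1 * ((m + 1 : ℕ) : ℝ) := by gcongr
        _ = _ := one_mul _
    calc _ ≤ _ := abs_sub_le _ ((J.card : ℝ) / Q ^ 2 * ((m + 1 : ℕ) : ℝ) * (a / Q ^ m)) _
      _ ≤ (7 * ((m + 1 : ℕ) : ℝ) * 2 ^ (m + 1) * B ^ m) / Q ^ 2 +
          ((m + 1 : ℕ) : ℝ) * (CJ B m / Q ^ 2) := add_le_add e3 h6
      _ = _ := by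
        push_cast
        ring

end mom

end Pool.Agent.P8H9.PW
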