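import Pool.Agent.P8H9.PW.Mom

/-! The traces on the cohomology of powers as polynomials in the trace on the curve; normal moments. -/

set_option autoImplicit false

namespace Pool.Agent.P8H9.PW

open Polynomial Finset

/-- the coefficient of `Xⁱ` in `(1 + T X + X²)ⁿ`, a polynomial in `T` -/
noncomputable def pn (n i : ℕ) : ℤ[X] :=
  ((1 + C (X : ℤ[X]) * X + X ^ 2 : ℤ[X][X]) ^ n).coeff i

theorem pn_zero (i : ℕ) : pn 0 i = if i = 0 then 1 else 0 := by
  unfold pn
  rw [pow_zero, coeff_one]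

theorem pn_succ (n i : ℕ) : pn (n + 1) i = pn n i + X * (if 1 ≤ i then pn n (i - 1) else 0) +
    (if 2 ≤ i then pn n (i - 2) else 0) := by
  unfold pn
  set P := (1 + C (X : ℤ[X]) * X + X ^ 2 : ℤ[X][X]) ^ n with hP
  have h1 : (1 + C (X : ℤ[X]) * X + X ^ 2 : ℤ[X][X]) ^ (n + 1) = P + C X * (P * X) + P * X ^ 2 := by
    rw [pow_succ, ← hP]; ring
  rw [h1, coeff_add, coeff_add, coeff_C_mul, coeff_mul_X_pow']
  congr 2
  congr 1
  have := coeff_mul_X_pow' P 1 i
  rwa [pow_one] at this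

theorem pn_natDegree (n : ℕ) : ∀ i, (pn n i).natDegree ≤ i := by
  induction n with
  | zero =>
    intro i
    rw [pn_zero]
    split_ifs <;> simp
  | succ n ih =>
    intro i
    rw [pn_succ]
    refine (natDegree_add_le _ _).trans (max_le ((natDegree_add_le _ _).trans
      (max_le (ih i) ?_)) ?_)
    · split_ifs with h
      · refine natDegree_mul_le.trans ?_
        have := ih (i - 1)
        rw [natDegree_X]
        omega
      · simp
    · split_ifs with h
      · exact (ih (i - 2)).trans (by omega)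
      · simp

/-- parity -/
theorem pn_parity (n : ℕ) : ∀ i j, (i + j) % 2 = 1 → (pn n i).coeff j = 0 := by
  induction n with
  | zero =>
    intro i j hij
    rw [pn_zero]
    split_ifs with h
    · rw [coeff_one, if_neg]
      omega
    · simp
  | succ n ih =>
    intro i j hij
    rw [pn_succ, coeff_add, coeff_add, ih i j hij, zero_add]
    have h1 : (X * (if 1 ≤ i then pn n (i - 1) else 0)).coeff j = 0 := by
      rcases j with _ | j
      · rw [mul_coeff_zero, coeff_X_zero, zero_mul]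
      · rw [coeff_X_mul]
        split_ifs with h
        · exact ih (i - 1) j (by omega)
        · simp
    rw [h1, zero_add]
    split_ifs with h
    · exact ih (i - 2) j (by omega)
    · simp

/-- coefficients are nonnegative -/
theorem pn_nonneg (n : ℕ) : ∀ i j, 0 ≤ (pn n i).coeff j := by
  induction n with
  | zero =>
    intro i j
    rw [pn_zero]
    split_ifs
    · rw [coeff_one]
      split_ifs <;> norm_num
    · simp
  | succ n ih =>
    intro i j
    rw [pn_succ, coeff_add, coeff_add]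
    refine add_nonneg (add_nonneg (ih i j) ?_) ?_
    · rcases j with _ | j
      · rw [mul_coeff_zero, coeff_X_zero, zero_mul]
      · rw [coeff_X_mul]
        split_ifs
        · exact ih _ _
        · simp
    · split_ifs
      · exact ih _ _
      · simp

/-- the real function -/
noncomputable def pR (p : ℤ[X]) (u : ℝ) : ℝ := (p.map (Int.castRingHom ℝ)).eval u

theorem pR_eq (p : ℤ[X]) (u : ℝ) {D : ℕ} (hD : p.natDegree ≤ D) :
    pR p u = ∑ j ∈ range (D + 1), (p.coeff j : ℝ) * u ^ j := by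
  unfold pR
  rw [eval_eq_sum_range' (n := D + 1)]
  · refine sum_congr rfl fun j _ => ?_
    rw [coeff_map]
    rfl
  · have := natDegree_map_le (p := p) (f := Int.castRingHom ℝ)
    omega

theorem pR_mul (p r : ℤ[X]) (u : ℝ) : pR (p * r) u = pR p u * pR r u := by
  unfold pR
  rw [Polynomial.map_mul, eval_mul]

/-- homogeneity -/
theorem coeff_real (n i : ℕ) (t q : ℤ) (y u : ℝ) (ht : (t : ℝ) = y * u) (hq : (q : ℝ) = y ^ 2) :
    (((1 + C t * X + C q * X ^ 2 : ℤ[X]) ^ n).coeff i : ℝ) = y ^ i * pR (pn n i) u := by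
  have h1 : (((1 + C t * X + C q * X ^ 2 : ℤ[X]) ^ n).coeff i : ℝ) =
      ((1 + C (y * u) * X + C (y ^ 2) * X ^ 2 : ℝ[X]) ^ n).coeff i := by
    have h2 := coeff_map (Int.castRingHom ℝ) (p := (1 + C t * X + C q * X ^ 2 : ℤ[X]) ^ n) i
    rw [Polynomial.map_pow, Polynomial.map_add, Polynomial.map_add, Polynomial.map_mul,
      Polynomial.map_mul, Polynomial.map_pow, map_C, map_C, map_X, Polynomial.map_one] at h2
    have h3 : Int.castRingHom ℝ t = y * u := ht
    have h4 : Int.castRingHom ℝ q = y ^ 2 := hq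
    rw [h3, h4] at h2
    rw [h2]
    rfl
  have h2 : (1 + C (y * u) * X + C (y ^ 2) * X ^ 2 : ℝ[X]) =
      (1 + C u * X + X ^ 2 : ℝ[X]).comp (C y * X) := by
    simp only [add_comp, mul_comp, pow_comp, X_comp, C_comp, one_comp, C_mul, C_pow]
    ring
  rw [h1, h2, ← pow_comp, comp_C_mul_X_coeff]
  have h3 : ((1 + C u * X + X ^ 2 : ℝ[X]) ^ n).coeff i = pR (pn n i) u := by
    set φ : ℤ[X] →+* ℝ := (evalRingHom u).comp (mapRingHom (Int.castRingHom ℝ)) with hφ
    have h4 : pR (pn n i) u = φ (pn n i) := rfl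
    have h5 : φ X = u := by
      rw [hφ]
      simp
    rw [h4, pn, ← coeff_map, Polynomial.map_pow, Polynomial.map_add, Polynomial.map_add,
      Polynomial.map_mul, Polynomial.map_pow, map_C, map_X, Polynomial.map_one, h5]
  rw [h3]
  ring

/-- the linear functional with moments `μ` -/
noncomputable def expect (μ : ℕ → ℤ) (p : ℤ[X]) : ℤ :=
  ∑ j ∈ range (p.natDegree + 1), p.coeff j * μ j

theorem expect_eq (μ : ℕ → ℤ) (p : ℤ[X]) {D : ℕ} (hD : p.natDegree ≤ D) :
    expect μ p = ∑ j ∈ range (D + 1), p.coeff j * μ j := by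
  unfold expect
  refine sum_subset (range_subset_range.2 (by omega)) fun j _ hj => ?_
  rw [mem_range] at hj
  rw [coeff_eq_zero_of_natDegree_lt (by omega), zero_mul]

theorem sum_range_mul_two {R : Type*} [AddCommMonoid R] (N : ℕ) (g : ℕ → R) :
    ∑ j ∈ range (N * 2), g j = ∑ m ∈ range N, (g (2 * m) + g (2 * m + 1)) := by
  induction N with
  | zero => simp
  | succ N ih =>
    have : (N + 1) * 2 = N * 2 + 1 + 1 := by ring
    rw [this, sum_range_succ, sum_range_succ, ih, sum_range_succ, mul_comm N 2, add_assoc]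

/-- the moments of `-1 + √2 G`, `G` standard normal -/
def em (j : ℕ) : ℤ := ∑ l ∈ range (j + 1), (-1) ^ (j - l) * (j.choose l : ℤ) * gm 2 l

theorem gm_odd (m : ℕ) : (gm (1 : ℤ) (2 * m) : ℤ) % 2 = 1 := by
  induction m with
  | zero => simp [gm]
  | succ m ih =>
    have h1 : gm (1 : ℤ) (2 * (m + 1)) = 1 * ((2 * m + 1 : ℕ) : ℤ) * gm 1 (2 * m) := rfl
    rw [h1, one_mul, Int.mul_emod, ih]
    have h2 : (((2 * m + 1 : ℕ) : ℤ)) % 2 = 1 := by omega
    rw [h2]
    norm_num

theorem gm_odd_zero {R : Type*} [CommSemiring R] (v : R) : ∀ m : ℕ, gm v (2 * m + 1) = 0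
  | 0 => rfl
  | m + 1 => by
    have h1 : gm v (2 * (m + 1) + 1) = v * ((2 * m + 1 + 1 : ℕ) : R) * gm v (2 * m + 1) := rfl
    rw [h1, gm_odd_zero v m, mul_zero]

theorem gm_two_even (l : ℕ) (hl : 1 ≤ l) : (2 : ℤ) ∣ gm 2 l := by
  rcases l with _ | _ | l
  · omega
  · exact dvd_zero _
  · have h1 : gm (2 : ℤ) (l + 2) = 2 * ((l + 1 : ℕ) : ℤ) * gm 2 l := rfl
    rw [h1, mul_assoc]
    exact dvd_mul_right _ _

theorem em_odd (j : ℕ) : em j % 2 = 1 := by
  unfold em
  rw [sum_range_succ']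
  have h1 : (2 : ℤ) ∣ ∑ l ∈ range j, (-1) ^ (j - (l + 1)) * (j.choose (l + 1) : ℤ) * gm 2 (l + 1) :=
    dvd_sum fun l _ => (gm_two_even (l + 1) (by omega)).mul_left _
  obtain ⟨a, ha⟩ := h1
  rw [ha]
  simp only [Nat.sub_zero, Nat.choose_zero_right, Nat.cast_one, mul_one, gm]
  rcases Nat.even_or_odd j with h | h
  · rw [h.neg_one_pow]
    omega
  · rw [h.neg_one_pow]
    omega

/-- the second coefficient is an integer -/
theorem even_expect (p : ℤ[X]) : (2 : ℤ) ∣ expect (gm 1) (p ^ 2) + expect em p := by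
  have : Fact (Nat.Prime 2) := ⟨Nat.prime_two⟩
  set D := p.natDegree with hD
  have h1 : (p ^ 2).natDegree ≤ 2 * D + 1 := by
    rw [natDegree_pow]
    omega
  rw [expect_eq _ _ h1, expect_eq _ p le_rfl, ← hD]
  suffices h0 : ((∑ j ∈ range (2 * D + 1 + 1), (p ^ 2).coeff j * gm 1 j +
      ∑ j ∈ range (D + 1), p.coeff j * em j : ℤ) : ZMod 2) = 0 by
    have := (ZMod.intCast_zmod_eq_zero_iff_dvd _ 2).1 h0
    exact_mod_cast this
  have hg : ∀ m, ((gm (1 : ℤ) (2 * m) : ℤ) : ZMod 2) = 1 := by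
    intro m
    have h2 := gm_odd m
    have h3 : ((gm (1 : ℤ) (2 * m) : ℤ) : ZMod 2) = ((1 : ℤ) : ZMod 2) := by
      rw [ZMod.intCast_eq_intCast_iff]
      exact h2
    rw [h3, Int.cast_one]
  have he : ∀ j, ((em j : ℤ) : ZMod 2) = 1 := by
    intro j
    have h2 := em_odd j
    have h3 : ((em j : ℤ) : ZMod 2) = ((1 : ℤ) : ZMod 2) := by
      rw [ZMod.intCast_eq_intCast_iff]
      exact h2
    rw [h3, Int.cast_one]
  have hc : ∀ m, (((p ^ 2).coeff (2 * m) : ℤ) : ZMod 2) = ((p.coeff m : ℤ) : ZMod 2) := by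
    intro m
    have h2 := ZMod.expand_card (p := 2) (p.map (Int.castRingHom (ZMod 2)))
    have h3 : ((p ^ 2).map (Int.castRingHom (ZMod 2))).coeff (2 * m) =
        (p.map (Int.castRingHom (ZMod 2))).coeff m := by
      rw [Polynomial.map_pow, ← h2, coeff_expand_mul' (by norm_num)]
    rw [coeff_map, coeff_map] at h3
    exact h3
  push_cast
  have h4 : ∑ j ∈ range (2 * D + 1 + 1), (((p ^ 2).coeff j : ℤ) : ZMod 2) * ((gm (1 : ℤ) j : ℤ) : ZMod 2) =
      ∑ m ∈ range (D + 1), ((p.coeff m : ℤ) : ZMod 2) := by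
    have h5 : 2 * D + 1 + 1 = (D + 1) * 2 := by ring
    rw [h5]
    have h6 := sum_range_mul_two (D + 1)
      (fun j => (((p ^ 2).coeff j : ℤ) : ZMod 2) * ((gm (1 : ℤ) j : ℤ) : ZMod 2))
    rw [h6]
    refine sum_congr rfl fun m _ => ?_
    rw [hc, hg, gm_odd_zero, Int.cast_zero, mul_zero, add_zero, mul_one]
  rw [h4]
  have h5 : ∑ j ∈ range (D + 1), ((p.coeff j : ℤ) : ZMod 2) * ((em j : ℤ) : ZMod 2) =
      ∑ m ∈ range (D + 1), ((p.coeff m : ℤ) : ZMod 2) := by
    refine sum_congr rfl fun m _ => ?_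
    rw [he, mul_one]
  rw [h5, ← two_mul]
  have h6 : (2 : ZMod 2) = 0 := rfl
  rw [h6, zero_mul]

end Pool.Agent.P8H9.PW
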