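import Pool.Agent.P8H9.PW.Pol
import Pool.Agent.P8H9.PV.Loc

/-! Moments of the traces of Frobenius and of its square over the family. -/

set_option autoImplicit false

namespace Pool.Agent.P8H9.PW

open Polynomial Finset Pool.Agent.H341R2.Sharp Pool.Agent.P8H9.AV Pool.Agent.P8H9.PV

universe u

variable {F : Type u} [Field F] [Fintype F] [DecidableEq F]

/-- the monic irreducible polynomials of degree `D` -/
noncomputable def Jd (F : Type u) [Field F] [Fintype F] [DecidableEq F] (D : ℕ) : Finset F[X] :=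
  (Irr F D).filter fun P => P.natDegree = D

theorem mem_Jd {D : ℕ} {P : F[X]} : P ∈ Jd F D ↔ P.Monic ∧ Irreducible P ∧ P.natDegree = D := by
  unfold Jd
  rw [mem_filter, mem_Irr]
  constructor
  · rintro ⟨⟨h1, h2, -⟩, h3⟩
    exact ⟨h1, h2, h3⟩
  · rintro ⟨h1, h2, h3⟩
    exact ⟨⟨h1, h2, h3.le⟩, h3⟩

theorem T_one_eq (g : F[X]) : (T g 1 : ℝ) = SJ (Jd F 1) g := by
  unfold T SJ
  have h1 : (Irr F 1).filter (fun P => P.natDegree ∣ 1) = Jd F 1 := by
    unfold Jd
    refine filter_congr fun P _ => ?_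
    exact Nat.dvd_one
  rw [h1]
  push_cast
  refine sum_congr rfl fun P hP => ?_
  rw [(mem_Jd.1 hP).2.2]
  simp

theorem T_two_eq (g : F[X]) :
    (T g 2 : ℝ) = ∑ P ∈ Jd F 1, (lam g P : ℝ) ^ 2 + 2 * SJ (Jd F 2) g := by
  classical
  unfold T SJ
  have h1 : (Irr F 2).filter (fun P => P.natDegree ∣ 2) = Jd F 1 ∪ Jd F 2 := by
    ext P
    rw [mem_union, mem_filter, mem_Jd, mem_Jd, mem_Irr, Nat.dvd_prime Nat.prime_two]
    constructor
    · rintro ⟨⟨a, b, -⟩, c | c⟩
      · exact Or.inl ⟨a, b, c⟩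
      · exact Or.inr ⟨a, b, c⟩
    · rintro (⟨a, b, c⟩ | ⟨a, b, c⟩)
      · exact ⟨⟨a, b, by omega⟩, Or.inl c⟩
      · exact ⟨⟨a, b, by omega⟩, Or.inr c⟩
  have h2 : Disjoint (Jd F 1) (Jd F 2) := by
    rw [disjoint_left]
    intro P hP hP'
    have := (mem_Jd.1 hP).2.2
    have := (mem_Jd.1 hP').2.2
    omega
  rw [h1, sum_union h2, mul_sum]
  push_cast
  congr 1
  · refine sum_congr rfl fun P hP => ?_
    rw [(mem_Jd.1 hP).2.2]
    simp
  · refine sum_congr rfl fun P hP => ?_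
    rw [(mem_Jd.1 hP).2.2]
    simp

theorem lam_triv (hF : ringChar F ≠ 2) {P : F[X]} (hP : P.Monic) (hi : Irreducible P) :
    lam (1 : F[X]) P = 1 := by
  obtain ⟨E, _, _, _, φ, -, -, -, h2⟩ := lam_irr hF hP hi
  rw [h2, map_one, map_one]

theorem T_triv (hF : ringChar F ≠ 2) (m : ℕ) (hm : 1 ≤ m) :
    T (1 : F[X]) m = (Fintype.card F : ℤ) ^ m := by
  classical
  obtain ⟨p, hp⟩ := CharP.exists F
  have : Fact (Nat.Prime p) := ⟨CharP.char_is_prime F p⟩
  have : NeZero m := ⟨by omega⟩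
  let E := FiniteField.Extension F p m
  let _ : Fintype E := Fintype.ofFinite E
  have hfr : Module.finrank F E = m := FiniteField.finrank_extension F p m
  have hcard : Fintype.card E = Fintype.card F ^ m := by
    rw [Module.card_eq_pow_finrank (K := F) (V := E), hfr]
  have h4 := T_eq_sum (E := E) hF (1 : F[X])
  rw [hfr] at h4
  rw [h4]
  simp only [map_one, sum_const, card_univ, nsmul_eq_mul, mul_one]
  rw [hcard]
  push_cast
  rfl

theorem card_J1 (hF : ringChar F ≠ 2) : ((Jd F 1).card : ℝ) = Fintype.card F := by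
  have h1 := T_one_eq (F := F) 1
  have h2 : SJ (Jd F 1) (1 : F[X]) = (Jd F 1).card := by
    unfold SJ
    rw [sum_congr rfl fun P hP => ?_, sum_const, nsmul_eq_mul, mul_one]
    rw [lam_triv hF (mem_Jd.1 hP).1 (mem_Jd.1 hP).2.1, Int.cast_one]
  rw [← h2, ← h1, T_triv hF 1 le_rfl]
  push_cast
  rw [pow_one]

theorem card_J2 (hF : ringChar F ≠ 2) :
    (Fintype.card F : ℝ) + 2 * (Jd F 2).card = (Fintype.card F : ℝ) ^ 2 := by
  have h1 := T_two_eq (F := F) 1
  have h2 : SJ (Jd F 2) (1 : F[X]) = (Jd F 2).card := by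
    unfold SJ
    rw [sum_congr rfl fun P hP => ?_, sum_const, nsmul_eq_mul, mul_one]
    rw [lam_triv hF (mem_Jd.1 hP).1 (mem_Jd.1 hP).2.1, Int.cast_one]
  have h3 : ∑ P ∈ Jd F 1, (lam (1 : F[X]) P : ℝ) ^ 2 = Fintype.card F := by
    rw [← card_J1 hF, sum_congr rfl fun P hP => ?_, sum_const, nsmul_eq_mul, mul_one]
    rw [lam_triv hF (mem_Jd.1 hP).1 (mem_Jd.1 hP).2.1]
    norm_num
  rw [h2, h3, T_triv hF 2 (by norm_num)] at h1
  rw [← h1]
  push_cast
  rfl

open Classical in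
/-- the number of zeros -/
noncomputable def Zr (g : F[X]) : ℝ := ((Jd F 1).filter fun P => P ∣ g).card

theorem Zr_le {g : F[X]} (hg : g ≠ 0) : Zr g ≤ g.natDegree := by
  classical
  unfold Zr
  set Z := (Jd F 1).filter fun P => P ∣ g with hZ
  have h1 : ∏ P ∈ Z, P ∣ g := by
    refine prod_dvd_of_coprime (fun P hP P' hP' hne => ?_) fun P hP => (mem_filter.1 hP).2
    have h2 := mem_Jd.1 (mem_filter.1 (mem_coe.1 hP)).1
    have h3 := mem_Jd.1 (mem_filter.1 (mem_coe.1 hP')).1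
    refine h2.2.1.coprime_iff_not_dvd.2 fun h => hne ?_
    exact eq_of_monic_of_associated h2.1 h3.1 (h2.2.1.associated_of_dvd h3.2.1 h)
  have h2 := natDegree_le_of_dvd h1 hg
  rw [natDegree_prod_of_monic _ _ fun P hP => (mem_Jd.1 (mem_filter.1 hP).1).1,
    sum_congr rfl fun P hP => (mem_Jd.1 (mem_filter.1 hP).1).2.2, sum_const, smul_eq_mul,
    mul_one] at h2
  exact_mod_cast h2

theorem Zr_nonneg (g : F[X]) : 0 ≤ Zr g := by
  unfold Zr
  positivity

theorem sum_lam_sq (hF : ringChar F ≠ 2) (g : F[X]) :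
    ∑ P ∈ Jd F 1, (lam g P : ℝ) ^ 2 = Fintype.card F - Zr g := by
  classical
  have h1 : ∀ P ∈ Jd F 1, (lam g P : ℝ) ^ 2 = 1 - if P ∣ g then 1 else 0 := by
    intro P hP
    obtain ⟨a, b, -⟩ := mem_Jd.1 hP
    split_ifs with h
    · rw [lam_eq_zero hF a b h]
      norm_num
    · obtain ⟨E, _, _, _, φ, -, -, h3, h4⟩ := lam_irr hF a b
      rw [h4]
      have h5 : φ g ≠ 0 := fun h6 => h ((h3 _).1 h6)
      have h6 := quadraticChar_sq_one h5
      have h7 : ((quadraticChar E (φ g) : ℤ) : ℝ) ^ 2 = 1 := by exact_mod_cast h6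
      rw [h7, sub_zero]
  rw [sum_congr rfl h1, sum_sub_distrib, sum_const, nsmul_eq_mul, mul_one, card_J1 hF]
  congr 1
  unfold Zr
  rw [← sum_filter, sum_const, nsmul_eq_mul, mul_one]

/-- normalised trace of the `m`-th power of Frobenius -/
noncomputable def uu (g : F[X]) (m : ℕ) : ℝ := -(T g m : ℝ) / AV.sq F ^ m

theorem uu_bd (hF : ringChar F ≠ 2) {g : F[X]} (hg : g.Monic) (hodd : Odd g.natDegree) (m : ℕ)
    (hm : 1 ≤ m) : |uu g m| ≤ (5 * g.natDegree : ℕ) := by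
  have h0 := sq_pos (F := F)
  unfold uu
  rw [abs_div, abs_neg, abs_of_pos (pow_pos h0 m), div_le_iff₀ (pow_pos h0 m)]
  exact T_bd hF hg hodd m hm

theorem sq_sq : AV.sq F ^ 2 = Fintype.card F := by
  unfold AV.sq
  exact Real.sq_sqrt (by positivity)

theorem SJ_abs_erase {J : Finset F[X]} {P : F[X]} (hP : P ∈ J) (g : F[X]) :
    |SJ (J.erase P) g| ≤ |SJ J g| + 1 := by
  have h1 := SJ_erase hP g
  have h2 : SJ (J.erase P) g = SJ J g - lam g P := by linarith
  rw [h2]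
  exact (abs_sub _ _).trans (add_le_add le_rfl (lam_abs g P))

theorem pow_diff {x y M : ℝ} (hM : 1 ≤ M) (hx : |x| ≤ M) (hy : |y| ≤ M) (j : ℕ) :
    |x ^ j - y ^ j| ≤ j * M ^ j * |x - y| := by
  induction j with
  | zero => simp
  | succ j ih =>
    have h1 : x ^ (j + 1) - y ^ (j + 1) = x * (x ^ j - y ^ j) + (x - y) * y ^ j := by ring
    rw [h1]
    have hM0 : 0 < M := by linarith
    have h2 : |x * (x ^ j - y ^ j)| ≤ M * (j * M ^ j * |x - y|) := by
      rw [abs_mul]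
      exact mul_le_mul hx ih (abs_nonneg _) hM0.le
    have h3 : |(x - y) * y ^ j| ≤ |x - y| * M ^ (j + 1) := by
      rw [abs_mul, abs_pow]
      gcongr
      calc |y| ^ j ≤ M ^ j := pow_le_pow_left₀ (abs_nonneg _) hy _
        _ ≤ M ^ (j + 1) := pow_le_pow_right₀ hM (by omega)
    refine (abs_add_le _ _).trans ((add_le_add h2 h3).trans_eq ?_)
    push_cast
    ring

theorem gm_scale (c v : ℝ) : ∀ j, gm (c ^ 2 * v) j = c ^ j * gm v j
  | 0 => by simp [gm]
  | 1 => by simp [gm]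
  | (m + 2) => by
    have h1 : gm (c ^ 2 * v) (m + 2) = c ^ 2 * v * ((m + 1 : ℕ) : ℝ) * gm (c ^ 2 * v) m := rfl
    have h2 : gm v (m + 2) = v * ((m + 1 : ℕ) : ℝ) * gm v m := rfl
    rw [h1, h2, gm_scale c v m]
    ring

theorem gm_cast (v : ℤ) : ∀ j, ((gm v j : ℤ) : ℝ) = gm (v : ℝ) j
  | 0 => by simp [gm]
  | 1 => by simp [gm]
  | (m + 2) => by
    have h1 : gm v (m + 2) = v * ((m + 1 : ℕ) : ℤ) * gm v m := rfl
    have h2 : gm (v : ℝ) (m + 2) = v * ((m + 1 : ℕ) : ℝ) * gm (v : ℝ) m := rfl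
    rw [h1, h2, ← gm_cast v m]
    push_cast
    ring

theorem gm_bd {v : ℝ} (h0 : 0 ≤ v) (h1 : v ≤ 1) : ∀ j, 0 ≤ gm v j ∧ gm v j ≤ gm (1 : ℝ) j
  | 0 => by simp [gm]
  | 1 => by simp [gm]
  | (m + 2) => by
    have h2 : gm v (m + 2) = v * ((m + 1 : ℕ) : ℝ) * gm v m := rfl
    have h3 : gm (1 : ℝ) (m + 2) = 1 * ((m + 1 : ℕ) : ℝ) * gm (1 : ℝ) m := rfl
    obtain ⟨h4, h5⟩ := gm_bd h0 h1 m
    rw [h2, h3]
    constructor
    · positivity
    · exact mul_le_mul (mul_le_mul_of_nonneg_right h1 (by positivity)) h5 h4 (by positivity)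

/-- constants for the continuity of the normal moments in the variance -/
noncomputable def CG : ℕ → ℝ
  | 0 => 0
  | 1 => 0
  | (m + 2) => (m + 1 : ℕ) * (gm 1 m + CG m)

theorem CG_nonneg : ∀ j, 0 ≤ CG j
  | 0 => le_rfl
  | 1 => le_rfl
  | (m + 2) => by
    have h1 := CG_nonneg m
    have h2 := (gm_bd (v := 1) zero_le_one le_rfl m).1
    unfold CG
    positivity

theorem gm_cont {v w : ℝ} (h0 : 0 ≤ v) (h1 : v ≤ 1) (h0' : 0 ≤ w) (h1' : w ≤ 1) :
    ∀ j, |gm v j - gm w j| ≤ CG j * |v - w|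
  | 0 => by simp [gm, CG]
  | 1 => by simp [gm, CG]
  | (m + 2) => by
    have h2 : gm v (m + 2) = v * ((m + 1 : ℕ) : ℝ) * gm v m := rfl
    have h3 : gm w (m + 2) = w * ((m + 1 : ℕ) : ℝ) * gm w m := rfl
    have h4 : CG (m + 2) = (m + 1 : ℕ) * (gm 1 m + CG m) := rfl
    have h5 := gm_cont h0 h1 h0' h1' m
    have h6 := gm_bd h0 h1 m
    rw [h2, h3, h4]
    have h7 : v * ((m + 1 : ℕ) : ℝ) * gm v m - w * ((m + 1 : ℕ) : ℝ) * gm w m =
        ((m + 1 : ℕ) : ℝ) * ((v - w) * gm v m + w * (gm v m - gm w m)) := by ring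
    rw [h7, abs_mul, Nat.abs_cast, mul_assoc]
    gcongr
    refine (abs_add_le _ _).trans ?_
    rw [abs_mul, abs_mul, abs_of_nonneg h6.1, abs_of_nonneg h0']
    have h8 : |v - w| * gm v m ≤ |v - w| * gm 1 m := mul_le_mul_of_nonneg_left h6.2 (abs_nonneg _)
    have h9 : w * |gm v m - gm w m| ≤ 1 * (CG m * |v - w|) :=
      mul_le_mul h1' h5 (abs_nonneg _) zero_le_one
    linarith

section family

variable {f : F[X]} {k : ℕ}

theorem fam_fact (hf : f.Monic) (hodd : Odd f.natDegree) (hk : k ≤ f.natDegree) (c : Fin k → F) :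
    (fam f c).Monic ∧ Odd (fam f c).natDegree ∧ (fam f c).natDegree = f.natDegree := by
  obtain ⟨h2, h3⟩ := fam_monic hf hk c
  exact ⟨h2, by rwa [h3], h3⟩

/-- moments of the trace of Frobenius -/
theorem mom_one (hF : ringChar F ≠ 2) (hf : f.Monic) (hodd : Odd f.natDegree)
    (hk : k ≤ f.natDegree) (j : ℕ) (hj : j ≤ k) :
    |av F (fun c : Fin k → F => uu (fam f c) 1 ^ j) - gm 1 j| ≤
      CJ (5 * f.natDegree + 2 : ℕ) j / Fintype.card F := by
  have hs := sq_pos (F := F)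
  have hs1 := one_le_sq (F := F)
  have hcard := card_J1 (F := F) hF
  have hq0 : (0 : ℝ) < Fintype.card F := cardF_pos
  have h1 := moment hF f (k := k) (D := 1) (Jd F 1) (fun P hP => mem_Jd.1 hP)
    (B := (5 * f.natDegree + 2 : ℕ)) (Q := AV.sq F) hs1 (by rw [sq_sq, pow_one])
    (by exact_mod_cast (by omega : 1 ≤ 5 * f.natDegree + 2)) (fun P hP c => by
      refine (SJ_abs_erase hP _).trans ?_
      rw [← T_one_eq]
      obtain ⟨h2, h3, h4⟩ := fam_fact hf hodd hk c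
      have h5 := T_bd hF h2 h3 1 le_rfl
      rw [h4, pow_one] at h5
      push_cast at h5 ⊢
      nlinarith) (by rw [sq_sq, hcard]) j (by omega)
  rw [sq_sq, hcard, div_self hq0.ne'] at h1
  have h2 : av F (fun c : Fin k → F => uu (fam f c) 1 ^ j) =
      (-1) ^ j * (av F (fun c : Fin k → F => SJ (Jd F 1) (fam f c) ^ j) / AV.sq F ^ j) := by
    have h3 : (fun c : Fin k → F => uu (fam f c) 1 ^ j) =
        fun c => ((-1) ^ j / AV.sq F ^ j) * SJ (Jd F 1) (fam f c) ^ j := by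
      funext c
      unfold uu
      rw [← T_one_eq, pow_one, div_pow, neg_pow]
      ring
    rw [h3, av_mul]
    ring
  have h3 : gm (1 : ℝ) j = (-1) ^ j * gm (1 : ℝ) j := by
    have := gm_scale (-1) 1 j
    norm_num at this
    exact this
  rw [h2, h3, ← mul_sub, abs_mul, abs_pow, abs_neg, abs_one, one_pow, one_mul]
  exact h1

/-- constants -/
noncomputable def C2 (d j : ℕ) : ℝ :=
  j * (1 + 2 * (5 * d + 2 : ℕ) : ℝ) ^ j * d +
    ∑ l ∈ range (j + 1), (j.choose l : ℝ) * 2 ^ l * (CJ (5 * d + 2 : ℕ) l + CG l)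

/-- moments of the trace of the square of Frobenius -/
theorem mom_two (hF : ringChar F ≠ 2) (hf : f.Monic) (hodd : Odd f.natDegree)
    (hk : k ≤ f.natDegree) (j : ℕ) (hj : 2 * j ≤ k) :
    |av F (fun c : Fin k → F => uu (fam f c) 2 ^ j) - em j| ≤
      C2 f.natDegree j / Fintype.card F := by
  have hs := sq_pos (F := F)
  have hs1 := one_le_sq (F := F)
  have hq0 : (0 : ℝ) < Fintype.card F := cardF_pos
  have hq1 : (1 : ℝ) ≤ Fintype.card F := by exact_mod_cast Fintype.card_pos (α := F)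
  set q : ℝ := (Fintype.card F : ℝ) with hq
  set B : ℝ := ((5 * f.natDegree + 2 : ℕ) : ℝ) with hB
  have hB1 : 1 ≤ B := by
    rw [hB]
    exact_mod_cast (by omega : 1 ≤ 5 * f.natDegree + 2)
  have hcard := card_J2 (F := F) hF
  rw [← hq] at hcard
  have hT : ∀ c : Fin k → F, (T (fam f c) 2 : ℝ) = q - Zr (fam f c) + 2 * SJ (Jd F 2) (fam f c) := by
    intro c
    rw [T_two_eq, sum_lam_sq hF]
  have hZ : ∀ c : Fin k → F, 0 ≤ Zr (fam f c) ∧ Zr (fam f c) ≤ f.natDegree := by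
    intro c
    obtain ⟨h2, h3, h4⟩ := fam_fact hf hodd hk c
    refine ⟨Zr_nonneg _, ?_⟩
    have := Zr_le h2.ne_zero
    rwa [h4] at this
  have hZq : ∀ c : Fin k → F, Zr (fam f c) ≤ q := by
    intro c
    have h1 := sum_lam_sq hF (fam f c)
    have h2 : 0 ≤ ∑ P ∈ Jd F 1, (lam (fam f c) P : ℝ) ^ 2 := sum_nonneg fun _ _ => by positivity
    linarith
  have hS : ∀ c : Fin k → F, |SJ (Jd F 2) (fam f c)| ≤ (5 * f.natDegree + 1) * q := by
    intro c
    obtain ⟨h2, h3, h4⟩ := fam_fact hf hodd hk c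
    have h5 := T_bd hF h2 h3 2 (by norm_num)
    rw [h4, sq_sq, ← hq, hT c] at h5
    push_cast at h5
    obtain ⟨h6, h7⟩ := abs_le.1 h5
    have h8 := (hZ c).1
    have h9 := hZq c
    have h10 : (0 : ℝ) ≤ f.natDegree := by positivity
    rw [abs_le]
    constructor <;> nlinarith
  have h1 := fun l (hl : l * 2 ≤ k) => moment hF f (k := k) (D := 2) (Jd F 2)
    (fun P hP => mem_Jd.1 hP) (B := B) (Q := q) hq1 (by rw [hq]) hB1 (fun P hP c => by
      refine (SJ_abs_erase hP _).trans ?_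
      have := hS c
      rw [hB]
      push_cast
      nlinarith) (by nlinarith) l hl
  -- the variance
  set v : ℝ := ((Jd F 2).card : ℝ) / q ^ 2 with hv
  have hv0 : 0 ≤ v := by positivity
  have hv1 : v ≤ 1 := by
    rw [hv, div_le_one (by positivity)]
    nlinarith
  have hv2 : |v - 1 / 2| ≤ 1 / q := by
    have h3 : v - 1 / 2 = -(1 / (2 * q)) := by
      rw [hv]
      field_simp
      nlinarith
    rw [h3, abs_neg, abs_of_pos (by positivity)]
    apply one_div_le_one_div_of_le hq0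
    linarith
  have hw : ∀ l, l * 2 ≤ k → |av F (fun c : Fin k → F => (SJ (Jd F 2) (fam f c) / q) ^ l) -
      gm (1 / 2 : ℝ) l| ≤ (CJ B l + CG l) / q := by
    intro l hl
    have h3 := h1 l hl
    have h4 := gm_cont hv0 hv1 (w := 1 / 2) (by norm_num) (by norm_num) l
    have h5 : av F (fun c : Fin k → F => (SJ (Jd F 2) (fam f c) / q) ^ l) =
        av F (fun c : Fin k → F => SJ (Jd F 2) (fam f c) ^ l) / q ^ l := by
      have : (fun c : Fin k → F => (SJ (Jd F 2) (fam f c) / q) ^ l) =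
          fun c => (1 / q ^ l) * SJ (Jd F 2) (fam f c) ^ l := by
        funext c
        rw [div_pow]
        ring
      rw [this, av_mul]
      ring
    rw [h5]
    refine (abs_sub_le _ (gm v l) _).trans ?_
    have h6 : CJ B l / q ^ 2 ≤ CJ B l / q := by
      have := CJ_nonneg (by linarith : 0 ≤ B) l
      apply div_le_div_of_nonneg_left this hq0
      nlinarith
    have h7 : CG l * |v - 1 / 2| ≤ CG l / q := by
      have := CG_nonneg l
      calc CG l * |v - 1 / 2| ≤ CG l * (1 / q) := mul_le_mul_of_nonneg_left hv2 this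
        _ = _ := by ring
    rw [add_div]
    linarith
  -- replace the trace
  have hu : ∀ c : Fin k → F, |uu (fam f c) 2 ^ j - (-1 - 2 * (SJ (Jd F 2) (fam f c) / q)) ^ j| ≤
      j * (1 + 2 * B) ^ j * f.natDegree / q := by
    intro c
    obtain ⟨h2, h3, h4⟩ := fam_fact hf hodd hk c
    have h5 := uu_bd hF h2 h3 2 (by norm_num)
    rw [h4] at h5
    have h6 : uu (fam f c) 2 - (-1 - 2 * (SJ (Jd F 2) (fam f c) / q)) = Zr (fam f c) / q := by
      unfold uu
      rw [hT c, sq_sq, ← hq]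
      field_simp
      ring
    have h7 : |(-1 - 2 * (SJ (Jd F 2) (fam f c) / q))| ≤ 1 + 2 * B := by
      have h8 : |SJ (Jd F 2) (fam f c) / q| ≤ B := by
        rw [abs_div, abs_of_pos hq0, div_le_iff₀ hq0]
        refine (hS c).trans ?_
        rw [hB]
        push_cast
        nlinarith
      obtain ⟨h9, h10⟩ := abs_le.1 h8
      rw [abs_le]
      constructor <;> linarith
    have h8 : |uu (fam f c) 2| ≤ 1 + 2 * B := by
      refine h5.trans ?_
      rw [hB]
      push_cast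
      have : (0 : ℝ) ≤ f.natDegree := by positivity
      linarith
    refine (pow_diff (by linarith) h8 h7 j).trans ?_
    rw [h6, abs_div, abs_of_pos hq0, abs_of_nonneg (hZ c).1, mul_div_assoc]
    gcongr
    exact (hZ c).2
  have hE : av F (fun c : Fin k → F => (-1 - 2 * (SJ (Jd F 2) (fam f c) / q)) ^ j) =
      ∑ l ∈ range (j + 1), ((-1) ^ (j - l) * (j.choose l : ℝ) * (-2) ^ l) *
        av F (fun c : Fin k → F => (SJ (Jd F 2) (fam f c) / q) ^ l) := by
    have h2 : (fun c : Fin k → F => (-1 - 2 * (SJ (Jd F 2) (fam f c) / q)) ^ j) = fun c =>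
        ∑ l ∈ range (j + 1), ((-1) ^ (j - l) * (j.choose l : ℝ) * (-2) ^ l) *
          (SJ (Jd F 2) (fam f c) / q) ^ l := by
      funext c
      have h3 : (-1 - 2 * (SJ (Jd F 2) (fam f c) / q)) =
          (-2) * (SJ (Jd F 2) (fam f c) / q) + (-1) := by ring
      rw [h3, add_pow]
      refine sum_congr rfl fun l _ => ?_
      rw [mul_pow]
      ring
    rw [h2, av_sum]
    exact sum_congr rfl fun l _ => av_mul _ _
  have hem : (em j : ℝ) = ∑ l ∈ range (j + 1), ((-1) ^ (j - l) * (j.choose l : ℝ) * (-2) ^ l) *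
      gm (1 / 2 : ℝ) l := by
    unfold em
    push_cast
    refine sum_congr rfl fun l _ => ?_
    rw [gm_cast]
    have h2 := gm_scale (-2) (1 / 2) l
    have h3 : ((-2 : ℝ)) ^ 2 * (1 / 2) = ((2 : ℤ) : ℝ) := by norm_num
    rw [h3] at h2
    rw [h2]
    ring
  have hsum : |av F (fun c : Fin k → F => (-1 - 2 * (SJ (Jd F 2) (fam f c) / q)) ^ j) - em j| ≤
      ∑ l ∈ range (j + 1), (j.choose l : ℝ) * 2 ^ l * ((CJ B l + CG l) / q) := by
    rw [hE, hem, ← sum_sub_distrib]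
    refine (abs_sum_le_sum_abs _ _).trans (sum_le_sum fun l hl => ?_)
    rw [mem_range] at hl
    rw [← mul_sub, abs_mul]
    have h2 : |(-1 : ℝ) ^ (j - l) * (j.choose l : ℝ) * (-2) ^ l| = (j.choose l : ℝ) * 2 ^ l := by
      rw [abs_mul, abs_mul, abs_pow, abs_pow, abs_neg, abs_one, one_pow, one_mul, Nat.abs_cast,
        abs_neg, abs_two]
    rw [h2]
    exact mul_le_mul_of_nonneg_left (hw l (by omega)) (by positivity)
  have hfin : |av F (fun c : Fin k → F => uu (fam f c) 2 ^ j) -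
      av F (fun c : Fin k → F => (-1 - 2 * (SJ (Jd F 2) (fam f c) / q)) ^ j)| ≤
      j * (1 + 2 * B) ^ j * f.natDegree / q := by
    rw [← av_sub]
    exact av_abs_le _ _ hu
  refine (abs_sub_le _ _ _).trans ((add_le_add hfin hsum).trans_eq ?_)
  unfold C2
  rw [← hB, add_div, sum_div]
  congr 1
  refine sum_congr rfl fun l _ => ?_
  ring

end family

end Pool.Agent.P8H9.PW
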